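import Pool.Agent.Run7.h981.HomAlg

/-! Mod 2 Betti numbers are bounded by the real ones when integral homology has no 2-torsion. -/

set_option autoImplicit false

namespace Pool.Agent.Run7.h981

open Pool.Agent.Helper381 Pool.Agent.TH592.Nag Module

noncomputable section

theorem bd_single' (R : Type) [CommRing R] (X : Type) [TopologicalSpace X] (n : ℕ)
    (σ : Sing X (n + 1)) (a : R) :
    bd R X n (Finsupp.single σ a) =
      ∑ i : Fin (n + 2), ((-1 : ℤ) ^ (i : ℕ)) • Finsupp.single (sface n i σ) a := by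
  rw [bd, Finsupp.linearCombination_single, Finset.smul_sum]
  refine Finset.sum_congr rfl fun i _ => ?_
  rw [zsmul_single, Int.cast_smul_eq_zsmul]

section Coeff

variable {R R' : Type} [CommRing R] [CommRing R'] (X : Type) [TopologicalSpace X]

/-- change of coefficients -/
def cc (φ : R →+ R') (n : ℕ) : (Sing X n →₀ R) →+ (Sing X n →₀ R') :=
  Finsupp.mapRange.addMonoidHom φ

theorem cc_apply (φ : R →+ R') (n : ℕ) (c : Sing X n →₀ R) (σ : Sing X n) :
    cc X φ n c σ = φ (c σ) := by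
  simp [cc]

theorem cc_single (φ : R →+ R') (n : ℕ) (σ : Sing X n) (a : R) :
    cc X φ n (Finsupp.single σ a) = Finsupp.single σ (φ a) := by
  simp [cc]

theorem bd_cc (φ : R →+ R') (n : ℕ) (c : Sing X (n + 1) →₀ R) :
    bd R' X n (cc X φ (n + 1) c) = cc X φ n (bd R X n c) := by
  induction c using Finsupp.induction_linear with
  | zero => simp
  | add f g hf hg => rw [map_add, map_add, map_add, map_add, hf, hg]
  | single σ a =>
    rw [cc_single, bd_single', bd_single', map_sum]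
    refine Finset.sum_congr rfl fun i _ => ?_
    rw [map_zsmul, cc_single]

theorem cc_cyc (φ : R →+ R') (n : ℕ) {c : Sing X n →₀ R} (hc : c ∈ cyc R X n) :
    cc X φ n c ∈ cyc R' X n := by
  cases n with
  | zero => trivial
  | succ m =>
    have h1 : bd R X m c = 0 := hc
    show bd R' X m _ = 0
    rw [bd_cc, h1, map_zero]

theorem cc_bou (φ : R →+ R') (n : ℕ) {c : Sing X n →₀ R} (hc : c ∈ bou R X n) :
    cc X φ n c ∈ bou R' X n := by
  obtain ⟨b, rfl⟩ := hc
  exact ⟨cc X φ (n + 1) b, bd_cc X φ n b⟩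

end Coeff

section Two

variable (X : Type) [TopologicalSpace X]

/-- reduction mod 2 -/
abbrev red (n : ℕ) : (Sing X n →₀ ℤ) →+ (Sing X n →₀ ZMod 2) := cc X (Int.castAddHom (ZMod 2)) n

theorem exists_half (n : ℕ) (w : Sing X n →₀ ℤ) (hw : red X n w = 0) :
    ∃ e : Sing X n →₀ ℤ, w = (2 : ℤ) • e := by
  refine ⟨Finsupp.mapRange (fun a : ℤ => a / 2) (by simp) w, ?_⟩
  ext σ
  rw [Finsupp.smul_apply, Finsupp.mapRange_apply]
  have h1 : red X n w σ = 0 := by rw [hw]; rfl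
  rw [red, cc_apply] at h1
  have h2 : ((w σ : ℤ) : ZMod 2) = 0 := h1
  rw [ZMod.intCast_zmod_eq_zero_iff_dvd] at h2
  rw [smul_eq_mul]
  exact (Int.mul_ediv_cancel' h2).symm

theorem exists_lift (n : ℕ) (c : Sing X n →₀ ZMod 2) : ∃ w : Sing X n →₀ ℤ, red X n w = c := by
  refine ⟨Finsupp.mapRange (fun a : ZMod 2 => (a.val : ℤ)) (by simp) c, ?_⟩
  ext σ
  rw [red, cc_apply, Finsupp.mapRange_apply]
  show (((c σ).val : ℤ) : ZMod 2) = c σ
  simp

theorem red_two (n : ℕ) (c : Sing X n →₀ ℤ) : red X n ((2 : ℤ) • c) = 0 := by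
  ext σ
  rw [red, cc_apply, Finsupp.smul_apply, smul_eq_mul]
  show ((2 * c σ : ℤ) : ZMod 2) = 0
  rw [ZMod.intCast_zmod_eq_zero_iff_dvd]
  exact Dvd.intro _ rfl

/-- halving a boundary -/
theorem half_bou (h : ∀ n, ∀ c : Hm ℤ X n, (2 : ℤ) • c = 0 → c = 0) (n : ℕ)
    {e : Sing X n →₀ ℤ} (he : (2 : ℤ) • e ∈ bou ℤ X n) : e ∈ bou ℤ X n := by
  have hc : e ∈ cyc ℤ X n := by
    have h1 := bou_le ℤ X n he
    cases n with
    | zero => trivial
    | succ m =>
      have h2 : bd ℤ X m ((2 : ℤ) • e) = 0 := h1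
      rw [map_smul] at h2
      show bd ℤ X m e = 0
      exact (smul_eq_zero.mp h2).resolve_left (by norm_num)
  have h3 : (2 : ℤ) • (Submodule.Quotient.mk ⟨e, hc⟩ : Hm ℤ X n) = 0 := by
    rw [← Submodule.Quotient.mk_smul, Submodule.Quotient.mk_eq_zero]
    exact he
  have h4 := h n _ h3
  rw [Submodule.Quotient.mk_eq_zero] at h4
  exact h4

theorem lift_cycle (h : ∀ n, ∀ c : Hm ℤ X n, (2 : ℤ) • c = 0 → c = 0) (n : ℕ)
    (c : Sing X n →₀ ZMod 2) (hc : c ∈ cyc (ZMod 2) X n) :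
    ∃ z ∈ cyc ℤ X n, red X n z = c := by
  obtain ⟨w, hw⟩ := exists_lift X n c
  cases n with
  | zero => exact ⟨w, trivial, hw⟩
  | succ m =>
    have h1 : bd (ZMod 2) X m c = 0 := hc
    have h2 : red X m (bd ℤ X m w) = 0 := by
      rw [red, ← bd_cc]
      show bd (ZMod 2) X m (red X (m + 1) w) = 0
      rw [hw, h1]
    obtain ⟨e, he⟩ := exists_half X m _ h2
    obtain ⟨f, hf⟩ := half_bou X h m (e := e) (by rw [← he]; exact ⟨w, rfl⟩)
    refine ⟨w - (2 : ℤ) • f, ?_, ?_⟩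
    · show bd ℤ X m (w - (2 : ℤ) • f) = 0
      rw [map_sub, map_smul, hf, he, sub_self]
    · rw [map_sub, hw, red_two, sub_zero]

end Two

section Denoms

theorem clear_den {α : Type} (c : α →₀ ℚ) : ∃ N : ℤ, N ≠ 0 ∧ ∃ c' : α →₀ ℤ,
    ∀ x, ((c' x : ℤ) : ℚ) = N * c x := by
  induction c using Finsupp.induction_linear with
  | zero => exact ⟨1, one_ne_zero, 0, by simp⟩
  | add f g hf hg =>
    obtain ⟨N1, hN1, f', hf'⟩ := hf
    obtain ⟨N2, hN2, g', hg'⟩ := hg
    refine ⟨N1 * N2, mul_ne_zero hN1 hN2, N2 • f' + N1 • g', fun x => ?_⟩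
    rw [Finsupp.add_apply, Finsupp.smul_apply, Finsupp.smul_apply, smul_eq_mul, smul_eq_mul,
      Finsupp.add_apply]
    push_cast
    rw [hf', hg']
    ring
  | single y a =>
    refine ⟨a.den, by exact_mod_cast a.den_ne_zero, Finsupp.single y a.num, fun x => ?_⟩
    classical
    rw [Finsupp.single_apply, Finsupp.single_apply]
    split_ifs
    · rw [Int.cast_natCast, Rat.den_mul_eq_num]
    · simp

end Denoms

section Indep

variable (X : Type) [TopologicalSpace X]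

/-- integral relations among lifts of independent mod 2 classes vanish -/
theorem int_rel (h : ∀ n, ∀ c : Hm ℤ X n, (2 : ℤ) • c = 0 → c = 0) (n : ℕ) {r : ℕ}
    (z : Fin r → (Sing X n →₀ ℤ))
    (hi : ∀ a : Fin r → ZMod 2, (∑ i, a i • red X n (z i)) ∈ bou (ZMod 2) X n → ∀ i, a i = 0)
    (m : Fin r → ℤ) (hm : (∑ i, m i • z i) ∈ bou ℤ X n) : ∀ i, m i = 0 := by
  have key : ∀ k : ℕ, ∀ m : Fin r → ℤ, (∑ i, m i • z i) ∈ bou ℤ X n → ∀ i, (2 : ℤ) ^ k ∣ m i := by
    intro k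
    induction k with
    | zero => intro m _ i; simp
    | succ k ih =>
      intro m hm
      have h1 : (∑ i, ((m i : ℤ) : ZMod 2) • red X n (z i)) ∈ bou (ZMod 2) X n := by
        have h2 := cc_bou X (Int.castAddHom (ZMod 2)) n hm
        rw [map_sum] at h2
        have h3 : ∀ i, cc X (Int.castAddHom (ZMod 2)) n (m i • z i) =
            ((m i : ℤ) : ZMod 2) • red X n (z i) := by
          intro i
          rw [map_zsmul, Int.cast_smul_eq_zsmul]
        simp only [h3] at h2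
        exact h2
      have h4 : ∀ i, ∃ m' : ℤ, m i = 2 * m' := by
        intro i
        have := hi _ h1 i
        rw [ZMod.intCast_zmod_eq_zero_iff_dvd] at this
        obtain ⟨m', hm'⟩ := this
        exact ⟨m', hm'⟩
      choose m' hm' using h4
      have h5 : (2 : ℤ) • (∑ i, m' i • z i) ∈ bou ℤ X n := by
        rw [Finset.smul_sum]
        convert hm using 2 with i
        rw [hm' i, mul_smul]
      have h6 := ih m' (half_bou X h n h5)
      intro i
      rw [hm' i, pow_succ, mul_comm]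
      exact mul_dvd_mul_left 2 (h6 i)
  intro i
  have h7 := key (m i).natAbs m hm i
  apply Int.eq_zero_of_abs_lt_dvd h7
  rw [Int.abs_eq_natAbs]
  exact_mod_cast Nat.lt_two_pow_self

theorem real_rel (h : ∀ n, ∀ c : Hm ℤ X n, (2 : ℤ) • c = 0 → c = 0) (n : ℕ) {r : ℕ}
    (z : Fin r → (Sing X n →₀ ℤ))
    (hi : ∀ a : Fin r → ZMod 2, (∑ i, a i • red X n (z i)) ∈ bou (ZMod 2) X n → ∀ i, a i = 0)
    (a : Fin r → ℝ) (ha : (∑ i, a i • cc X (Int.castAddHom ℝ) n (z i)) ∈ bou ℝ X n) :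
    ∀ i, a i = 0 := by
  intro i
  rw [← Module.forall_dual_apply_eq_zero_iff ℚ]
  intro φ
  obtain ⟨w, hw⟩ := ha
  -- apply the functional
  have h1 : bd ℚ X n (cc X φ.toAddMonoidHom (n + 1) w) =
      ∑ i, φ (a i) • cc X (Int.castAddHom ℚ) n (z i) := by
    rw [bd_cc, hw, map_sum]
    refine Finset.sum_congr rfl fun j _ => ?_
    ext σ
    rw [cc_apply, Finsupp.smul_apply, Finsupp.smul_apply, cc_apply, cc_apply]
    show φ (a j * ((z j σ : ℤ) : ℝ)) = φ (a j) * ((z j σ : ℤ) : ℚ)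
    rw [mul_comm, ← zsmul_eq_mul, map_zsmul, zsmul_eq_mul, mul_comm]
  obtain ⟨N1, hN1, w', hw'⟩ := clear_den (cc X φ.toAddMonoidHom (n + 1) w)
  obtain ⟨N2, hN2, m, hm⟩ := clear_den (Finsupp.equivFunOnFinite.symm (fun i => φ (a i)))
  have hm' : ∀ i, ((m i : ℤ) : ℚ) = N2 * φ (a i) := fun i => hm i
  have hw2 : cc X (Int.castAddHom ℚ) (n + 1) w' =
      (N1 : ℚ) • cc X φ.toAddMonoidHom (n + 1) w := by
    ext σ
    rw [cc_apply, Finsupp.smul_apply]
    exact hw' σ
  have hinj : Function.Injective (cc X (Int.castAddHom ℚ) n) := by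
    intro c1 c2 hc
    ext σ
    have := DFunLike.congr_fun hc σ
    rw [cc_apply, cc_apply] at this
    have h0 : ((c1 σ : ℤ) : ℚ) = ((c2 σ : ℤ) : ℚ) := this
    exact_mod_cast h0
  have h2 : bd ℤ X n (N2 • w') = ∑ i, (N1 * m i) • z i := by
    apply hinj
    rw [map_smul, map_zsmul, ← bd_cc, hw2, map_smul, h1, map_sum, Finset.smul_sum, Finset.smul_sum]
    refine Finset.sum_congr rfl fun j _ => ?_
    rw [map_zsmul]
    ext σ
    simp only [Finsupp.smul_apply, cc_apply, zsmul_eq_mul, smul_eq_mul]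
    push_cast
    rw [hm' j]
    show (N2 : ℚ) * (N1 * (φ (a j) * _)) = _
    ring
  have h3 := int_rel X h n z hi (fun i => N1 * m i) ⟨_, h2⟩ i
  have h4 : m i = 0 := (mul_eq_zero.mp h3).resolve_left hN1
  have h5 := hm' i
  rw [h4, Int.cast_zero] at h5
  exact (mul_eq_zero.mp h5.symm).resolve_left (by exact_mod_cast hN2)

theorem finrank_two_le (h : ∀ n, ∀ c : Hm ℤ X n, (2 : ℤ) • c = 0 → c = 0) (n : ℕ)
    (hf : Module.Finite ℝ (Hm ℝ X n)) :
    haveI : Fact (Nat.Prime 2) := ⟨Nat.prime_two⟩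
    finrank (ZMod 2) (Hm (ZMod 2) X n) ≤ finrank ℝ (Hm ℝ X n) := by
  have : Fact (Nat.Prime 2) := ⟨Nat.prime_two⟩
  by_cases hfin : Module.Finite (ZMod 2) (Hm (ZMod 2) X n)
  swap
  · rw [Module.finrank_of_not_finite hfin]
    exact Nat.zero_le _
  set b := Module.finBasis (ZMod 2) (Hm (ZMod 2) X n) with hb
  have h1 : ∀ i, ∃ z ∈ cyc ℤ X n, ∃ hz : red X n z ∈ cyc (ZMod 2) X n,
      (Submodule.Quotient.mk ⟨red X n z, hz⟩ : Hm (ZMod 2) X n) = b i := by
    intro i
    obtain ⟨⟨c, hc⟩, hci⟩ := Submodule.mkQ_surjective _ (b i)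
    obtain ⟨z, hz, hzc⟩ := lift_cycle X h n c hc
    refine ⟨z, hz, by rw [hzc]; exact hc, ?_⟩
    rw [← hci]
    subst hzc
    rfl
  choose z hz hrz hzb using h1
  have hi : ∀ a : Fin (finrank (ZMod 2) (Hm (ZMod 2) X n)) → ZMod 2,
      (∑ i, a i • red X n (z i)) ∈ bou (ZMod 2) X n → ∀ i, a i = 0 := by
    intro a ha
    have h2 := b.linearIndependent
    rw [Fintype.linearIndependent_iff] at h2
    apply h2 a
    have h3 : ∑ i, a i • b i = (Submodule.Quotient.mk
        (∑ i, a i • (⟨red X n (z i), hrz i⟩ : cyc (ZMod 2) X n)) : Hm (ZMod 2) X n) := by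
      rw [← Submodule.mkQ_apply, map_sum]
      refine Finset.sum_congr rfl fun i _ => ?_
      rw [map_smul, Submodule.mkQ_apply, hzb i]
    rw [h3, Submodule.Quotient.mk_eq_zero]
    show ((∑ i, a i • (⟨red X n (z i), hrz i⟩ : cyc (ZMod 2) X n) : cyc (ZMod 2) X n) :
      Sing X n →₀ ZMod 2) ∈ bou (ZMod 2) X n
    rw [Submodule.coe_sum]
    exact ha
  have h4 : LinearIndependent ℝ (fun i => (Submodule.Quotient.mk
      (⟨cc X (Int.castAddHom ℝ) n (z i), cc_cyc X _ n (hz i)⟩ : cyc ℝ X n) : Hm ℝ X n)) := by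
    rw [Fintype.linearIndependent_iff]
    intro a ha
    apply real_rel X h n z hi a
    have h5 : ∑ i, a i • (Submodule.Quotient.mk
        (⟨cc X (Int.castAddHom ℝ) n (z i), cc_cyc X _ n (hz i)⟩ : cyc ℝ X n) : Hm ℝ X n) =
        (Submodule.Quotient.mk
        (∑ i, a i • (⟨cc X (Int.castAddHom ℝ) n (z i), cc_cyc X _ n (hz i)⟩ : cyc ℝ X n)) :
          Hm ℝ X n) := by
      rw [← Submodule.mkQ_apply, map_sum]
      refine Finset.sum_congr rfl fun i _ => ?_
      rw [map_smul, Submodule.mkQ_apply]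
    rw [h5, Submodule.Quotient.mk_eq_zero] at ha
    have h6 : ((∑ i, a i • (⟨cc X (Int.castAddHom ℝ) n (z i), cc_cyc X _ n (hz i)⟩ :
        cyc ℝ X n) : cyc ℝ X n) : Sing X n →₀ ℝ) ∈ bou ℝ X n := ha
    rw [Submodule.coe_sum] at h6
    exact h6
  have h7 := h4.fintype_card_le_finrank
  rwa [Fintype.card_fin] at h7

end Indep

end

end Pool.Agent.Run7.h981
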