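import Pool.Agent.Run7.h981.Vanish

/-! Vanishing of singular cohomology of compact manifolds above the dimension. -/

set_option autoImplicit false

namespace Pool.Agent.Run7.h981

open Pool.Agent.Helper438.Sc Set Topology

universe v

theorem RV_chart (k : Type v) [Field k] (d : ℕ) {M : Type} [TopologicalSpace M]
    (e : OpenPartialHomeomorph M (EuclideanSpace ℝ (Fin d))) (W : Set M) (hW : IsOpen W)
    (hWs : W ⊆ e.source) (q : ℕ) (hq : d ≤ q) : RV k W q := by
  set e' := e.restrOpen W hW with he'
  have hsrc : e'.source = W := by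
    rw [he', OpenPartialHomeomorph.restrOpen_source]
    exact inter_eq_right.mpr hWs
  apply zRV_congr k hsrc
  apply RV_homeo k e'.toHomeomorphSourceTarget q
  have h1 := (EuclideanSpace.equiv (Fin d) ℝ).toHomeomorph
  apply RV_homeo k (h1.image e'.target) q
  exact RV_open k d _ (h1.isOpenMap _ e'.open_target) q hq

theorem RV_compact (k : Type v) [Field k] (d : ℕ) (M : Type) [TopologicalSpace M]
    [ChartedSpace (EuclideanSpace ℝ (Fin d)) M] [CompactSpace M] (q : ℕ) (hq : d + 1 ≤ q) :
    RV k M q := by
  classical
  obtain ⟨q, rfl⟩ : ∃ q', q = q' + 1 := ⟨q - 1, by omega⟩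
  obtain ⟨t, ht⟩ := (isCompact_univ : IsCompact (univ : Set M)).elim_nhds_subcover
    (fun x => (chartAt (EuclideanSpace ℝ (Fin d)) x).source)
    (fun x _ => (chartAt (EuclideanSpace ℝ (Fin d)) x).open_source.mem_nhds
      (mem_chart_source _ x))
  have key : ∀ s : Finset M, RV k (⋃ x ∈ s, (chartAt (EuclideanSpace ℝ (Fin d)) x).source : Set M)
      (q + 1) := by
    intro s
    induction s using Finset.induction_on with
    | empty =>
      have : (⋃ x ∈ (∅ : Finset M), (chartAt (EuclideanSpace ℝ (Fin d)) x).source : Set M) = ∅ := by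
        simp
      rw [this]
      exact zRV_empty k _
    | insert a s _ ih =>
      rw [Finset.set_biUnion_insert]
      have ho : IsOpen (⋃ x ∈ s, (chartAt (EuclideanSpace ℝ (Fin d)) x).source : Set M) :=
        isOpen_biUnion fun x _ => (chartAt (EuclideanSpace ℝ (Fin d)) x).open_source
      apply RV_glue k _ _ (chartAt (EuclideanSpace ℝ (Fin d)) a).open_source ho q
      · exact RV_chart k d _ _ (chartAt (EuclideanSpace ℝ (Fin d)) a).open_source le_rfl _
          (by omega)
      · exact ih
      · exact RV_chart k d (chartAt (EuclideanSpace ℝ (Fin d)) a) _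
          ((chartAt (EuclideanSpace ℝ (Fin d)) a).open_source.inter ho) inter_subset_left _
          (by omega)
  have h2 := key t
  have h3 : (⋃ x ∈ t, (chartAt (EuclideanSpace ℝ (Fin d)) x).source : Set M) = univ :=
    univ_subset_iff.mp ht.2
  rw [h3] at h2
  exact RV_homeo k (Homeomorph.Set.univ M).symm (q + 1) h2

end Pool.Agent.Run7.h981
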