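import Pool.Agent.Run7.h981.Symm
import Pool.Agent.Run7.h981.HomAlg2
import Pool.Agent.Run7.h981.Vanish2
import Pool.Agent.Helper381.Riem3
import Pool.Agent.Helper381.Main

/-! Antipodal sets and real Betti numbers (homology, degrees at most the dimension). -/

set_option autoImplicit false

namespace Pool.Agent.Run7.h981

open Pool.Agent.Helper381 Pool.Agent.TH592.Nag Bundle Manifold Module
open scoped ContDiff

theorem singCoh_top (k : Type) [Field k] (M : Type) [TopologicalSpace M] (n : ℕ)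
    (h : Pool.Agent.Helper438.Sc.RV k M (n + 1)) : finrank k (SingCoh k M (n + 1)) = 0 := by
  have : Subsingleton (SingCoh k M (n + 1)) := by
    rw [Submodule.Quotient.subsingleton_iff, Submodule.comap_subtype_eq_top]
    intro c hc
    obtain ⟨b, hb⟩ := h c hc
    exact ⟨b, hb.symm⟩
  exact finrank_zero_of_subsingleton

theorem isAntipodal_of (d : ℕ) (M : Type) [MetricSpace M]
    [ChartedSpace (EuclideanSpace ℝ (Fin d)) M]
    [IsManifold (𝓡 d) ∞ M]
    [RiemannianBundle (fun x : M ↦ TangentSpace (𝓡 d) x)]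
    [IsContMDiffRiemannianBundle (𝓡 d) ∞ (EuclideanSpace ℝ (Fin d))
      (fun x : M ↦ TangentSpace (𝓡 d) x)]
    [IsRiemannianManifold (𝓡 d) M]
    [CompactSpace M] [ConnectedSpace M]
    {R : ℝ} (G : Geo M (EuclideanSpace ℝ (Fin d)) R)
    (s : M → M → M)
    (hs : ∀ x : M, Isometry (s x) ∧ s x x = x ∧
      mfderiv (𝓡 d) (𝓡 d) (s x) x = -ContinuousLinearMap.id ℝ (EuclideanSpace ℝ (Fin d)))
    (A : Finset M) (hA : ∀ x ∈ A, ∀ y ∈ A, s x y = y) : IsAntipodal (A : Set M) := by
  rcases Nat.eq_zero_or_pos d with hd | hd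
  · -- dimension zero
    have hsub : Subsingleton M := by
      subst hd
      have hdis : DiscreteTopology M := by
        rw [discreteTopology_iff_isOpen_singleton]
        intro x
        have h1 := (chartAt (EuclideanSpace ℝ (Fin 0)) x).open_source
        have h2 : (chartAt (EuclideanSpace ℝ (Fin 0)) x).source = {x} := by
          ext y
          constructor
          · intro hy
            exact (chartAt (EuclideanSpace ℝ (Fin 0)) x).injOn hy (mem_chart_source _ x)
              (Subsingleton.elim _ _)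
          · intro hy
            rw [Set.mem_singleton_iff] at hy
            rw [hy]
            exact mem_chart_source _ x
        rw [← h2]
        exact h1
      exact PreconnectedSpace.trivial_of_discrete
    intro x _ y _
    exact ⟨IsometryEquiv.refl M, ⟨fun _ => rfl, rfl, 1, one_pos, fun y _ _ =>
      Subsingleton.elim _ _⟩, rfl⟩
  · intro x hx y hy
    obtain ⟨h1, h2, h3⟩ := hs x
    have hne : mfderiv (𝓡 d) (𝓡 d) (s x) x ≠ 0 := by
      rw [h3]
      intro h0
      have : Nonempty (Fin d) := ⟨⟨0, hd⟩⟩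
      have : Nontrivial (EuclideanSpace ℝ (Fin d)) := inferInstance
      obtain ⟨v, hv⟩ := exists_ne (0 : EuclideanSpace ℝ (Fin d))
      have h4 := congrArg (fun L : EuclideanSpace ℝ (Fin d) →L[ℝ] EuclideanSpace ℝ (Fin d) => L v) h0
      have h5 : -v = 0 := h4
      exact hv (neg_eq_zero.mp h5)
    have hdiff : MDifferentiableAt (𝓡 d) (𝓡 d) (s x) x := by
      by_contra hnd
      exact hne (mfderiv_zero_of_not_mdifferentiableAt hnd)
    have hder := hdiff.hasMFDerivAt
    rw [h3] at hder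
    exact ⟨isoEquiv (s x) h1, isSymm_of_mfderiv G (isoEquiv (s x) h1) x h2 hder, hA x hx y hy⟩

theorem card_bound (d : ℕ) (M : Type) [MetricSpace M]
    [ChartedSpace (EuclideanSpace ℝ (Fin d)) M]
    [IsManifold (𝓡 d) ∞ M]
    [RiemannianBundle (fun x : M ↦ TangentSpace (𝓡 d) x)]
    [IsContMDiffRiemannianBundle (𝓡 d) ∞ (EuclideanSpace ℝ (Fin d))
      (fun x : M ↦ TangentSpace (𝓡 d) x)]
    [IsRiemannianManifold (𝓡 d) M]
    [CompactSpace M] [ConnectedSpace M]
    (s : M → M → M)
    (hs : ∀ x : M, Isometry (s x) ∧ s x x = x ∧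
      mfderiv (𝓡 d) (𝓡 d) (s x) x = -ContinuousLinearMap.id ℝ (EuclideanSpace ℝ (Fin d)))
    (A : Finset M) (hA : ∀ x ∈ A, ∀ y ∈ A, s x y = y)
    (htor : ∀ n, ∀ c : Hm ℤ M n, (2 : ℤ) • c = 0 → c = 0) :
    A.card ≤ ∑ i ∈ Finset.range (d + 1), finrank ℝ (Hm ℝ M i) := by
  have : Fact (Nat.Prime 2) := ⟨Nat.prime_two⟩
  obtain ⟨R, G⟩ := riemannian_geo (E := EuclideanSpace ℝ (Fin d)) (M := M)
  have h1 := G.card_le A (isAntipodal_of d M G s hs A hA)
  obtain ⟨a1, -⟩ := G.betti_finite (ZMod 2)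
  obtain ⟨a2, -⟩ := G.betti_finite ℝ
  have h2 : ∀ n, d + 1 ≤ n → finrank (ZMod 2) (SingCoh (ZMod 2) M n) = 0 := by
    intro n hn
    obtain ⟨m, rfl⟩ : ∃ m, n = m + 1 := ⟨n - 1, by omega⟩
    exact singCoh_top (ZMod 2) M m (RV_compact (ZMod 2) d M (m + 1) hn)
  rw [totalBetti_eq (d + 1) a1 h2, Nat.cast_le] at h1
  refine h1.trans (Finset.sum_le_sum fun i _ => ?_)
  rw [finrank_coh]
  exact finrank_two_le M htor i (finite_hm ℝ M i (a2 i))

/-- finiteness of the distance on connected extended metric spaces -/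
theorem edist_fin {M : Type} [EMetricSpace M] [PreconnectedSpace M] (x y : M) :
    edist x y ≠ ⊤ := by
  have h1 : IsClopen {z : M | edist x z ≠ ⊤} := by
    constructor
    · rw [← isOpen_compl_iff, EMetric.isOpen_iff]
      intro z hz
      have hz' : edist x z = ⊤ := by
        by_contra h
        exact hz h
      refine ⟨1, one_pos, fun w hw hw2 => ?_⟩
      have h3 : edist x z ≤ edist x w + edist w z := edist_triangle _ _ _
      rw [hz', top_le_iff] at h3
      have hw3 : edist w z < 1 := hw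
      have hne : edist x w + edist w z ≠ ⊤ :=
        ENNReal.add_ne_top.mpr ⟨hw2, (hw3.trans ENNReal.one_lt_top).ne⟩
      exact hne h3
    · rw [EMetric.isOpen_iff]
      intro z hz
      refine ⟨1, one_pos, fun w hw => ?_⟩
      have hw3 : edist w z < 1 := hw
      have h3 : edist x w ≤ edist x z + edist z w := edist_triangle _ _ _
      rw [edist_comm z w] at h3
      exact (lt_of_le_of_lt h3 (ENNReal.add_lt_top.mpr ⟨lt_top_iff_ne_top.mpr hz,
        hw3.trans ENNReal.one_lt_top⟩)).ne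
  have h2 := h1.eq_univ ⟨x, by simp⟩
  have h3 : y ∈ {z : M | edist x z ≠ ⊤} := by rw [h2]; trivial
  exact h3

theorem card_bound' (d : ℕ) (M : Type) [EMetricSpace M]
    [ChartedSpace (EuclideanSpace ℝ (Fin d)) M]
    [IsManifold (𝓡 d) ∞ M]
    [RiemannianBundle (fun x : M ↦ TangentSpace (𝓡 d) x)]
    [IsContMDiffRiemannianBundle (𝓡 d) ∞ (EuclideanSpace ℝ (Fin d))
      (fun x : M ↦ TangentSpace (𝓡 d) x)]
    [IsRiemannianManifold (𝓡 d) M]
    [CompactSpace M] [ConnectedSpace M]
    (s : M → M → M)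
    (hs : ∀ x : M, Isometry (s x) ∧ s x x = x ∧
      mfderiv (𝓡 d) (𝓡 d) (s x) x = -ContinuousLinearMap.id ℝ (EuclideanSpace ℝ (Fin d)))
    (A : Finset M) (hA : ∀ x ∈ A, ∀ y ∈ A, s x y = y)
    (htor : ∀ n, ∀ c : Hm ℤ M n, (2 : ℤ) • c = 0 → c = 0) :
    A.card ≤ ∑ i ∈ Finset.range (d + 1), finrank ℝ (Hm ℝ M i) := by
  let inst : MetricSpace M := EMetricSpace.toMetricSpace (fun x y => edist_fin x y)
  exact card_bound d M s hs A hA htor

end Pool.Agent.Run7.h981
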