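import Pool.Agent.TH592.Nag.Bridge

/-! Duality between singular homology and cohomology over a field. -/

set_option autoImplicit false

namespace Pool.Agent.Run7.h981

open Pool.Agent.Helper381 Pool.Agent.TH592.Nag Module

noncomputable section

theorem bd_bd (R : Type) [CommRing R] (X : Type) [TopologicalSpace X] (n : ℕ)
    (b : Sing X (n + 2) →₀ R) : bd R X n (bd R X (n + 1) b) = 0 := by
  apply toC_injective
  rw [← d_toC, ← d_toC, map_zero, ← ModuleCat.comp_apply, HomologicalComplex.d_comp_d]
  rfl

theorem bou_le (R : Type) [CommRing R] (X : Type) [TopologicalSpace X] (n : ℕ) :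
    bou R X n ≤ cyc R X n := by
  cases n with
  | zero => exact le_top
  | succ m =>
    rintro _ ⟨b, rfl⟩
    exact bd_bd R X m b

theorem zsmul_single {R : Type} [CommRing R] {α : Type} (a : R) (m : ℤ) (x : α) :
    a • (m • Finsupp.single x (1 : R)) = (m : R) • Finsupp.single x a := by
  rw [← Int.cast_smul_eq_zsmul R m, smul_comm, Finsupp.smul_single, smul_eq_mul, mul_one]

section Dual

variable (k : Type) [Field k] (X : Type) [TopologicalSpace X]

/-- functionals on chains from cochains -/
def lf (n : ℕ) : (Sing X n → k) ≃ₗ[k] ((Sing X n →₀ k) →ₗ[k] k) :=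
  Finsupp.llift k k k (Sing X n)

theorem lf_single (n : ℕ) (f : Sing X n → k) (σ : Sing X n) (a : k) :
    lf k X n f (Finsupp.single σ a) = a * f σ := by
  simp [lf]

theorem bd_single (n : ℕ) (σ : Sing X (n + 1)) (a : k) :
    bd k X n (Finsupp.single σ a) =
      ∑ i : Fin (n + 2), ((-1 : k) ^ (i : ℕ)) • Finsupp.single (sface n i σ) a := by
  rw [bd, Finsupp.linearCombination_single, Finset.smul_sum]
  refine Finset.sum_congr rfl fun i _ => ?_
  rw [zsmul_single]
  congr 1
  simp

theorem lf_altd (n : ℕ) (f : Sing X n → k) :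
    lf k X (n + 1) (altd k (sface (X := X)) n f) = (lf k X n f).comp (bd k X n) := by
  refine Finsupp.lhom_ext' fun σ => LinearMap.ext_ring ?_
  simp only [LinearMap.comp_apply, Finsupp.lsingle_apply]
  rw [lf_single, bd_single, map_sum, one_mul]
  simp only [altd, LinearMap.coe_mk, AddHom.coe_mk]
  refine Finset.sum_congr rfl fun i _ => ?_
  rw [map_smul, lf_single, smul_eq_mul, one_mul]

theorem mem_cocycle_iff (n : ℕ) (f : Sing X n → k) :
    f ∈ LinearMap.ker (altd k (sface (X := X)) n) ↔ ∀ c ∈ bou k X n, lf k X n f c = 0 := by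
  rw [LinearMap.mem_ker]
  constructor
  · rintro h _ ⟨b, rfl⟩
    have h1 := lf_altd k X n f
    rw [h, map_zero] at h1
    have h2 := LinearMap.congr_fun h1 b
    rw [LinearMap.comp_apply] at h2
    exact h2.symm
  · intro h
    apply (lf k X (n + 1)).injective
    rw [map_zero, lf_altd]
    ext σ
    simp only [LinearMap.comp_apply]
    exact h _ ⟨_, rfl⟩

theorem mem_cobound_iff (n : ℕ) (f : Sing X n → k) :
    f ∈ cobound k (fun n => Sing X n → k) (fun n => altd k (sface (X := X)) n) n ↔
      ∀ c ∈ cyc k X n, lf k X n f c = 0 := by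
  cases n with
  | zero =>
    constructor
    · intro h c _
      have h1 : f = 0 := h
      rw [h1, map_zero]
      rfl
    · intro h
      have h1 : lf k X 0 f = 0 := LinearMap.ext fun c => h c trivial
      have h2 : f = 0 := by
        apply (lf k X 0).injective
        rw [h1, map_zero]
      rw [h2]
      exact Submodule.zero_mem _
  | succ m =>
    constructor
    · rintro ⟨g, rfl⟩ c hc
      have h1 : bd k X m c = 0 := hc
      show lf k X (m + 1) (altd k (sface (X := X)) m g) c = 0
      rw [lf_altd, LinearMap.comp_apply, h1, map_zero]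
    · intro h
      have h1 : LinearMap.ker (bd k X m) ≤ LinearMap.ker (lf k X (m + 1) f) := by
        intro c hc
        exact h c hc
      have h2 : lf k X (m + 1) f ∈ LinearMap.range (bd k X m).dualMap := by
        rw [LinearMap.range_dualMap_eq_dualAnnihilator_ker, Submodule.mem_dualAnnihilator]
        intro c hc
        exact h1 hc
      obtain ⟨g, hg⟩ := h2
      refine ⟨(lf k X m).symm g, ?_⟩
      apply (lf k X (m + 1)).injective
      show lf k X (m + 1) (altd k (sface (X := X)) m ((lf k X m).symm g)) = _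
      rw [lf_altd, LinearEquiv.apply_symm_apply]
      exact hg

/-- evaluation of a cocycle on homology -/
def ev (n : ℕ) : LinearMap.ker (altd k (sface (X := X)) n) →ₗ[k] Dual k (Hm k X n) where
  toFun f := Submodule.liftQ _ ((lf k X n f.1).comp (cyc k X n).subtype) (by
    intro c hc
    rw [LinearMap.mem_ker, LinearMap.comp_apply]
    exact (mem_cocycle_iff k X n f.1).mp f.2 _ hc)
  map_add' f g := by
    apply Submodule.linearMap_qext
    ext c
    simp
  map_smul' a f := by
    apply Submodule.linearMap_qext
    ext c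
    simp

theorem ev_mk (n : ℕ) (f : LinearMap.ker (altd k (sface (X := X)) n)) (c : cyc k X n) :
    ev k X n f (Submodule.Quotient.mk c) = lf k X n f.1 c.1 := rfl

theorem ev_surj (n : ℕ) : Function.Surjective (ev k X n) := by
  intro φ
  obtain ⟨g, hg⟩ := LinearMap.exists_extend (φ.comp (Submodule.mkQ _) : cyc k X n →ₗ[k] k)
  have h1 : ∀ c : cyc k X n, g c.1 = φ (Submodule.Quotient.mk c) := by
    intro c
    have := LinearMap.congr_fun hg c
    exact this
  have h0 := bou_le k X n
  refine ⟨⟨(lf k X n).symm g, ?_⟩, ?_⟩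
  · rw [mem_cocycle_iff]
    intro c hc
    rw [LinearEquiv.apply_symm_apply, h1 ⟨c, h0 hc⟩]
    have h2 : (Submodule.Quotient.mk ⟨c, h0 hc⟩ : Hm k X n) = 0 := by
      rw [Submodule.Quotient.mk_eq_zero]
      exact hc
    rw [h2, map_zero]
  · apply Submodule.linearMap_qext
    ext c
    simp only [LinearMap.comp_apply, Submodule.mkQ_apply]
    rw [ev_mk]
    show lf k X n ((lf k X n).symm g) c.1 = _
    rw [LinearEquiv.apply_symm_apply, h1]

theorem ev_ker (n : ℕ) : LinearMap.ker (ev k X n) =
    (cobound k (fun n => Sing X n → k) (fun n => altd k (sface (X := X)) n) n).comap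
      (LinearMap.ker (altd k (sface (X := X)) n)).subtype := by
  ext f
  rw [LinearMap.mem_ker, Submodule.mem_comap, Submodule.subtype_apply, mem_cobound_iff]
  constructor
  · intro h c hc
    have := LinearMap.congr_fun h (Submodule.Quotient.mk ⟨c, hc⟩)
    exact this
  · intro h
    apply Submodule.linearMap_qext
    ext c
    exact h c.1 c.2

theorem coh_dual (n : ℕ) : Nonempty (SingCoh k X n ≃ₗ[k] Dual k (Hm k X n)) :=
  ⟨(Submodule.quotEquivOfEq _ _ (ev_ker k X n).symm).trans
    ((ev k X n).quotKerEquivOfSurjective (ev_surj k X n))⟩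

theorem finrank_coh (n : ℕ) : finrank k (SingCoh k X n) = finrank k (Hm k X n) := by
  obtain ⟨e⟩ := coh_dual k X n
  rw [e.finrank_eq, Subspace.dual_finrank_eq]

theorem finite_hm (n : ℕ) (h : Module.Finite k (SingCoh k X n)) : Module.Finite k (Hm k X n) := by
  obtain ⟨e⟩ := coh_dual k X n
  have h1 : Module.Finite k (Dual k (Hm k X n)) := Module.Finite.equiv e
  exact Module.finite_dual_iff k |>.mp h1

end Dual

end

end Pool.Agent.Run7.h981
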