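import Pool.Agent.Helper381.Loc

/-! Rigidity of isometries: an isometry tangent to the identity at a fixed point is the identity.
First part: almost Euclidean estimates in a chart and directions of minimal geodesics. -/

set_option autoImplicit false

namespace Pool.Agent.Run7.h981

open Metric Set Pool.Agent.Helper381

universe u v

section Form

variable {E : Type v} [AddCommGroup E] [Module ℝ E] (B : E →ₗ[ℝ] E →ₗ[ℝ] ℝ)

/-- seminorm of a form -/
noncomputable def nB (v : E) : ℝ := Real.sqrt (B v v)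

theorem nB_nonneg (v : E) : 0 ≤ nB B v := Real.sqrt_nonneg _

theorem nB_sq (hp : ∀ v, 0 ≤ B v v) (v : E) : nB B v ^ 2 = B v v := Real.sq_sqrt (hp v)

theorem cs (hs : ∀ v w, B v w = B w v) (hp : ∀ v, 0 ≤ B v v) (v w : E) :
    B v w ≤ nB B v * nB B w := by
  have h := LinearMap.BilinForm.apply_mul_apply_le_of_forall_zero_le B hp v w
  rw [hs w v] at h
  have h1 : (B v w) ^ 2 ≤ (nB B v * nB B w) ^ 2 := by
    rw [mul_pow, nB_sq B hp, nB_sq B hp, sq]
    exact h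
  exact le_trans (le_abs_self _) (abs_le_of_sq_le_sq h1 (mul_nonneg (nB_nonneg B v) (nB_nonneg B w)))

theorem nB_add (hs : ∀ v w, B v w = B w v) (hp : ∀ v, 0 ≤ B v v) (v w : E) :
    nB B (v + w) ≤ nB B v + nB B w := by
  have h1 := cs B hs hp v w
  have h2 : nB B (v + w) ^ 2 ≤ (nB B v + nB B w) ^ 2 := by
    rw [nB_sq B hp]
    have h3 := nB_sq B hp v
    have h4 := nB_sq B hp w
    simp only [map_add, LinearMap.add_apply]
    rw [hs w v]
    nlinarith
  exact le_of_sq_le_sq h2 (add_nonneg (nB_nonneg B v) (nB_nonneg B w))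

theorem nB_smul (t : ℝ) (v : E) : nB B (t • v) = |t| * nB B v := by
  unfold nB
  simp only [map_smul, LinearMap.smul_apply, smul_eq_mul]
  rw [← mul_assoc, ← sq, Real.sqrt_mul (sq_nonneg t), Real.sqrt_sq_eq_abs]

theorem nB_neg (v : E) : nB B (-v) = nB B v := by
  have := nB_smul B (-1) v
  rw [neg_one_smul, abs_neg, abs_one, one_mul] at this
  exact this

theorem nB_sub_comm (v w : E) : nB B (v - w) = nB B (w - v) := by
  rw [← neg_sub, nB_neg]

theorem nB_tri (hs : ∀ v w, B v w = B w v) (hp : ∀ v, 0 ≤ B v v) (u v w : E) :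
    nB B (u - w) ≤ nB B (u - v) + nB B (v - w) := by
  have := nB_add B hs hp (u - v) (v - w)
  rwa [sub_add_sub_cancel] at this

/-- parallelogram law -/
theorem par (hs : ∀ v w, B v w = B w v) (a e : E) :
    B (a - e) (a - e) = 2 * B a a + 2 * B e e - B (a + e) (a + e) := by
  simp only [map_sub, map_add, LinearMap.sub_apply, LinearMap.add_apply, hs e a]
  ring

end Form

section Near

variable {M : Type u} {E : Type v} [MetricSpace M] [NormedAddCommGroup E] [NormedSpace ℝ E]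
  (c : Loc M E)

/-- radius -/
noncomputable def r₂ : ℝ := c.r₁ / 2

theorem r₂pos : 0 < r₂ c := half_pos c.r₁pos

/-- constant -/
noncomputable def AA : ℝ := 3 * c.κ + c.κ + 2 * c.κ ^ 2 + 2 * c.κ ^ 3 * c.r

theorem AApos : 0 < AA c := by
  have h1 := c.one_le_κ
  have h2 := c.rpos
  unfold AA
  positivity

theorem sub_r₁ {b u : E} {σ : ℝ} (hb : b ∈ ball c.x₀ (r₂ c)) (hσ : σ ≤ r₂ c)
    (hu : u ∈ ball b σ) : u ∈ ball c.x₀ c.r₁ := by
  rw [mem_ball] at *
  have := dist_triangle u b c.x₀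
  have h : r₂ c + r₂ c = c.r₁ := by unfold r₂; ring
  linarith

theorem near {b u v : E} {σ : ℝ} (hσ0 : 0 ≤ σ) (hσ : σ ≤ r₂ c) (hb : b ∈ ball c.x₀ (r₂ c))
    (hu : u ∈ ball b σ) (hv : v ∈ ball b σ) :
    dist (c.ψ u) (c.ψ v) ^ 2 ≤ (1 + AA c * σ) * c.G b (v - u) (v - u) ∧
    c.G b (v - u) (v - u) ≤ (1 + AA c * σ) * dist (c.ψ u) (c.ψ v) ^ 2 := by
  have hκ := c.one_le_κ
  have hr := c.rpos
  have hC := c.Cpos
  have hl := c.lampos
  have hu1 := sub_r₁ c hb hσ hu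
  have hv1 := sub_r₁ c hb hσ hv
  have hu' := c.ball_sub hu1
  have hv' := c.ball_sub hv1
  have hb' : b ∈ ball c.x₀ c.r := c.ball_sub (ball_subset_ball (by unfold r₂; linarith [c.r₁pos]) hb)
  set w := v - u with hw
  set q := ‖w‖ with hq
  have hq0 : 0 ≤ q := norm_nonneg _
  have hub : ‖u - b‖ ≤ σ := by rw [← dist_eq_norm]; exact (mem_ball.mp hu).le
  have hvb : ‖v - b‖ ≤ σ := by rw [← dist_eq_norm]; exact (mem_ball.mp hv).le
  have hq2 : q ≤ 2 * σ := by
    have : w = (v - b) - (u - b) := by rw [hw]; abel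
    rw [hq, this]
    have := norm_sub_le (v - b) (u - b)
    linarith
  have hlip := c.lip u hu' b hb' w w
  rw [abs_le] at hlip
  have hCub : c.C * ‖u - b‖ * ‖w‖ * ‖w‖ ≤ c.C * σ * q ^ 2 := by
    have : c.C * σ * q ^ 2 = c.C * σ * q * q := by ring
    rw [this]
    gcongr
  have hCk := c.C_le
  have hlb := c.lower b hb' w
  have hlu := c.lower u hu' w
  have hGb0 := c.nonneg hb' w
  have hGu0 := c.nonneg hu' w
  have hd := c.dist_sq_le hu' hv'
  have hd2 := c.le_dist_sq hu1 hv1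
  rw [← hw, ← hq] at hd hd2
  have hd0 : 0 ≤ dist (c.ψ u) (c.ψ v) ^ 2 := sq_nonneg _
  have e1 : c.C * q ^ 3 ≤ c.C * (2 * σ) * q ^ 2 := by
    have : c.C * q ^ 3 = c.C * q * q ^ 2 := by ring
    rw [this]
    gcongr
  have e2 : c.C * σ * q ^ 2 ≤ c.κ * σ * c.G b w w := by
    calc c.C * σ * q ^ 2 ≤ (c.κ * c.lam) * σ * q ^ 2 := by gcongr
      _ = c.κ * σ * (c.lam * q ^ 2) := by ring
      _ ≤ c.κ * σ * c.G b w w := by gcongr
  have e3 : c.C * σ * q ^ 2 ≤ c.κ * σ * c.G u w w := by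
    calc c.C * σ * q ^ 2 ≤ (c.κ * c.lam) * σ * q ^ 2 := by gcongr
      _ = c.κ * σ * (c.lam * q ^ 2) := by ring
      _ ≤ c.κ * σ * c.G u w w := by gcongr
  constructor
  · have e4 : 3 * c.κ * σ * c.G b w w ≤ AA c * σ * c.G b w w := by
      have : 3 * c.κ ≤ AA c := by
        unfold AA
        have : 0 ≤ c.κ + 2 * c.κ ^ 2 + 2 * c.κ ^ 3 * c.r := by positivity
        linarith
      gcongr
    nlinarith
  · have e5 : c.G b w w ≤ (1 + c.κ * σ) * c.G u w w := by nlinarith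
    have e6 : c.κ * (c.κ * q) ≤ 2 * c.κ ^ 2 * σ := by nlinarith
    have e7 : c.G u w w ≤ (1 + 2 * c.κ ^ 2 * σ) * dist (c.ψ u) (c.ψ v) ^ 2 := by
      refine hd2.trans ?_
      gcongr
    have hσr : σ ≤ c.r := by
      have := c.r₁_lt
      have := c.r₁pos
      have : r₂ c = c.r₁ / 2 := rfl
      linarith
    have e8 : (1 + c.κ * σ) * (1 + 2 * c.κ ^ 2 * σ) ≤ 1 + AA c * σ := by
      have : 2 * c.κ ^ 3 * σ * σ ≤ 2 * c.κ ^ 3 * c.r * σ := by gcongr
      unfold AA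
      nlinarith
    calc c.G b w w ≤ (1 + c.κ * σ) * c.G u w w := e5
      _ ≤ (1 + c.κ * σ) * ((1 + 2 * c.κ ^ 2 * σ) * dist (c.ψ u) (c.ψ v) ^ 2) := by gcongr
      _ = ((1 + c.κ * σ) * (1 + 2 * c.κ ^ 2 * σ)) * dist (c.ψ u) (c.ψ v) ^ 2 := by ring
      _ ≤ (1 + AA c * σ) * dist (c.ψ u) (c.ψ v) ^ 2 := by gcongr

end Near

end Pool.Agent.Run7.h981
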