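import Pool.Agent.Run7.h981.Rigid

/-! Directions of iterated midpoints. -/

set_option autoImplicit false

namespace Pool.Agent.Run7.h981

open Metric Set Pool.Agent.Helper381

universe u v

/-- iterated midpoints with `p` -/
structure IsMChain {M : Type u} [MetricSpace M] (p : M) (y : ℕ → M) : Prop where
  h1 : ∀ k, dist p (y (k + 1)) = dist p (y k) / 2
  h2 : ∀ k, dist (y (k + 1)) (y k) = dist p (y k) / 2

theorem IsMChain.dist_eq {M : Type u} [MetricSpace M] {p : M} {y : ℕ → M} (h : IsMChain p y)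
    (k : ℕ) : dist p (y k) = dist p (y 0) / 2 ^ k := by
  induction k with
  | zero => simp
  | succ k ih => rw [h.h1, ih, pow_succ]; field_simp

theorem exists_mchain {M : Type u} [MetricSpace M]
    (hmid : ∀ x y : M, ∃ m : M, dist x m = dist x y / 2 ∧ dist m y = dist x y / 2) (p q : M)
    (F : Set M) (hq : q ∈ F) (hF : ∀ y ∈ F, ∀ m, dist p y ≤ dist p q → dist p m = dist p y / 2 →
      dist m y = dist p y / 2 → m ∈ F) :
    ∃ y : ℕ → M, IsMChain p y ∧ y 0 = q ∧ ∀ k, y k ∈ F := by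
  choose m hm1 hm2 using hmid
  let y : ℕ → M := fun k => Nat.rec q (fun _ z => m p z) k
  have hs : ∀ k, y (k + 1) = m p (y k) := fun k => rfl
  have hc : IsMChain p y := ⟨fun k => by rw [hs]; exact hm1 _ _, fun k => by rw [hs]; exact hm2 _ _⟩
  refine ⟨y, hc, rfl, ?_⟩
  intro k
  induction k with
  | zero => exact hq
  | succ k ih =>
    rw [hs]
    refine hF _ ih _ ?_ (hm1 _ _) (hm2 _ _)
    rw [hc.dist_eq k]
    exact div_le_self dist_nonneg (one_le_pow₀ (by norm_num))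

section Dir

variable {M : Type u} {E : Type v} [MetricSpace M] [NormedAddCommGroup E] [NormedSpace ℝ E]
  (c : Loc M E)

theorem bmem {b : E} (hb : b ∈ ball c.x₀ (r₂ c)) : b ∈ ball c.x₀ c.r :=
  c.ball_sub (ball_subset_ball (by unfold r₂; linarith [c.r₁pos]) hb)

theorem dir {b v w : E} {σ : ℝ} (hσ0 : 0 < σ) (hσ : σ ≤ r₂ c) (hA : AA c * σ ≤ 1)
    (hb : b ∈ ball c.x₀ (r₂ c)) (hv : v ∈ ball b σ) (hw : w ∈ ball b σ)
    (h1 : dist (c.ψ b) (c.ψ w) = dist (c.ψ b) (c.ψ v) / 2)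
    (h2 : dist (c.ψ w) (c.ψ v) = dist (c.ψ b) (c.ψ v) / 2) :
    nB (c.G b) ((2 : ℝ) • (w - b) - (v - b)) ≤
      Real.sqrt (3 * AA c * σ) * nB (c.G b) (v - b) := by
  have hbb : b ∈ ball b σ := mem_ball_self hσ0
  have hb' := bmem c hb
  have hs := c.symm b hb'
  have hp := c.nonneg hb'
  have hA0 := AApos c
  obtain ⟨-, e1⟩ := near c hσ0.le hσ hb hbb hw
  obtain ⟨-, e2⟩ := near c hσ0.le hσ hb hw hv
  obtain ⟨e3, -⟩ := near c hσ0.le hσ hb hbb hv
  rw [h1] at e1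
  rw [h2] at e2
  set D := dist (c.ψ b) (c.ψ v) with hD
  have hpar := par (c.G b) hs (w - b) (v - w)
  have f1 : w - b + (v - w) = v - b := by abel
  have f2 : w - b - (v - w) = (2 : ℝ) • (w - b) - (v - b) := by module
  rw [f1, f2] at hpar
  have hGv := hp (v - b)
  have key : c.G b ((2 : ℝ) • (w - b) - (v - b)) ((2 : ℝ) • (w - b) - (v - b)) ≤
      (3 * AA c * σ) * c.G b (v - b) (v - b) := by
    set a := AA c * σ with ha
    have ha0 : 0 < a := by positivity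
    have g1 : c.G b ((2 : ℝ) • (w - b) - (v - b)) ((2 : ℝ) • (w - b) - (v - b)) ≤
        (1 + a) * D ^ 2 - c.G b (v - b) (v - b) := by
      rw [hpar]
      nlinarith
    have g2 : (1 + a) * D ^ 2 ≤ (1 + a) * ((1 + a) * c.G b (v - b) (v - b)) := by gcongr
    have g3 : 3 * AA c * σ = 3 * a := by rw [ha]; ring
    rw [g3]
    have g4 : a * a * c.G b (v - b) (v - b) ≤ a * 1 * c.G b (v - b) (v - b) := by gcongr
    nlinarith
  have h3 : nB (c.G b) ((2 : ℝ) • (w - b) - (v - b)) ^ 2 ≤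
      (Real.sqrt (3 * AA c * σ) * nB (c.G b) (v - b)) ^ 2 := by
    rw [nB_sq _ hp, mul_pow, nB_sq _ hp, Real.sq_sqrt (by positivity)]
    exact key
  exact le_of_sq_le_sq h3 (mul_nonneg (Real.sqrt_nonneg _) (nB_nonneg _ _))

theorem nB_le_dist {b u v : E} {σ : ℝ} (hσ0 : 0 ≤ σ) (hσ : σ ≤ r₂ c) (hA : AA c * σ ≤ 1)
    (hb : b ∈ ball c.x₀ (r₂ c)) (hu : u ∈ ball b σ) (hv : v ∈ ball b σ) :
    nB (c.G b) (v - u) ≤ 2 * dist (c.ψ u) (c.ψ v) := by
  obtain ⟨-, h⟩ := near c hσ0 hσ hb hu hv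
  have h2 : nB (c.G b) (v - u) ^ 2 ≤ (2 * dist (c.ψ u) (c.ψ v)) ^ 2 := by
    rw [nB_sq _ (c.nonneg (bmem c hb))]
    refine h.trans ?_
    have : 0 ≤ dist (c.ψ u) (c.ψ v) ^ 2 := sq_nonneg _
    nlinarith
  exact le_of_sq_le_sq h2 (by positivity)

theorem dist_le_nB {b u v : E} {σ : ℝ} (hσ0 : 0 ≤ σ) (hσ : σ ≤ r₂ c) (hA : AA c * σ ≤ 1)
    (hb : b ∈ ball c.x₀ (r₂ c)) (hu : u ∈ ball b σ) (hv : v ∈ ball b σ) :
    dist (c.ψ u) (c.ψ v) ≤ 2 * nB (c.G b) (v - u) := by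
  obtain ⟨h, -⟩ := near c hσ0 hσ hb hu hv
  have hp := c.nonneg (bmem c hb)
  have h2 : dist (c.ψ u) (c.ψ v) ^ 2 ≤ (2 * nB (c.G b) (v - u)) ^ 2 := by
    rw [mul_pow, nB_sq _ hp]
    refine h.trans ?_
    have := hp (v - u)
    nlinarith
  exact le_of_sq_le_sq h2 (by have := nB_nonneg (c.G b) (v - u); positivity)

/-- directions of iterated midpoints stay close to the initial one -/
theorem chainlem {b : E} {σ : ℝ} (hσ0 : 0 < σ) (hσ : σ ≤ r₂ c) (hA : AA c * σ ≤ 1)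
    (hb : b ∈ ball c.x₀ (r₂ c)) {y : ℕ → M} (hy : IsMChain (c.ψ b) y)
    (hD : c.L * dist (c.ψ b) (y 0) < σ) (hτ : dist (c.ψ b) (y 0) < c.τ) :
    ∃ v : ℕ → E, (∀ k, v k ∈ ball b (σ / 2 ^ k) ∧ c.ψ (v k) = y k) ∧
      ∀ k, nB (c.G b) ((2 : ℝ) ^ k • (v k - b) - (v 0 - b)) ≤
        8 * dist (c.ψ b) (y 0) * Real.sqrt (3 * AA c * σ) := by
  have hL := c.one_le_L
  have hb1 : b ∈ ball c.x₀ c.r₁ := ball_subset_ball (by unfold r₂; linarith [c.r₁pos]) hb
  set D := dist (c.ψ b) (y 0) with hDdef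
  have hD0 : 0 ≤ D := dist_nonneg
  have hex : ∀ k, ∃ w, w ∈ ball b (σ / 2 ^ k) ∧ c.ψ w = y k := by
    intro k
    have hk := hy.dist_eq k
    have h2k : (1 : ℝ) ≤ 2 ^ k := one_le_pow₀ (by norm_num)
    have hle : dist (c.ψ b) (y k) ≤ D := by rw [hk]; exact div_le_self hD0 h2k
    obtain ⟨w, -, hwy, hwn⟩ := c.in_chart hb1 (lt_of_le_of_lt hle hτ)
    refine ⟨w, ?_, hwy⟩
    rw [mem_ball, dist_eq_norm]
    refine lt_of_le_of_lt hwn ?_
    rw [hk]
    calc c.L * (D / 2 ^ k) = (c.L * D) / 2 ^ k := by ring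
      _ < σ / 2 ^ k := by gcongr
  choose v hv hvy using hex
  refine ⟨v, fun k => ⟨hv k, hvy k⟩, ?_⟩
  set s := Real.sqrt (3 * AA c * σ) with hs
  have hs0 : 0 ≤ s := Real.sqrt_nonneg _
  have hA0 := AApos c
  have hb' := bmem c hb
  have hsym := c.symm b hb'
  have hp := c.nonneg hb'
  -- size of each vector
  have hσk : ∀ k : ℕ, 0 < σ / 2 ^ k ∧ σ / 2 ^ k ≤ σ := by
    intro k
    have h2k : (1 : ℝ) ≤ 2 ^ k := one_le_pow₀ (by norm_num)
    exact ⟨by positivity, div_le_self hσ0.le h2k⟩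
  have hsize : ∀ k, nB (c.G b) (v k - b) ≤ 2 * (D / 2 ^ k) := by
    intro k
    have h := nB_le_dist c (hσk k).1.le ((hσk k).2.trans hσ) (σ := σ / 2 ^ k)
      (le_trans (by gcongr; exact (hσk k).2) hA) hb
      (mem_ball_self (hσk k).1) (hv k)
    rwa [hvy, hy.dist_eq k] at h
  have hstep : ∀ k, nB (c.G b) ((2 : ℝ) ^ (k + 1) • (v (k + 1) - b) - (2 : ℝ) ^ k • (v k - b)) ≤
      2 * D * s * (3 / 4) ^ k := by
    intro k
    have hv' : v (k + 1) ∈ ball b (σ / 2 ^ k) := by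
      refine ball_subset_ball ?_ (hv (k + 1))
      rw [pow_succ]
      have : (0 : ℝ) < 2 ^ k := by positivity
      apply div_le_div_of_nonneg_left hσ0.le this
      linarith
    have h := dir c (hσk k).1 ((hσk k).2.trans hσ)
      (le_trans (by gcongr; exact (hσk k).2) hA) hb (hv k) hv'
      (by rw [hvy, hvy]; exact hy.h1 k) (by rw [hvy, hvy]; exact hy.h2 k)
    have e : (2 : ℝ) ^ (k + 1) • (v (k + 1) - b) - (2 : ℝ) ^ k • (v k - b) =
        (2 : ℝ) ^ k • ((2 : ℝ) • (v (k + 1) - b) - (v k - b)) := by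
      rw [pow_succ]
      module
    rw [e, nB_smul, abs_of_pos (by positivity)]
    have h34 : Real.sqrt (3 * AA c * (σ / 2 ^ k)) ≤ s * (3 / 4) ^ k := by
      have e1 : 3 * AA c * (σ / 2 ^ k) = (3 * AA c * σ) * (1 / 2) ^ k := by
        rw [one_div, inv_pow]; ring
      rw [e1, Real.sqrt_mul (by positivity)]
      gcongr
      apply Real.sqrt_le_iff.mpr
      refine ⟨by positivity, ?_⟩
      rw [← pow_mul, mul_comm k 2, pow_mul]
      gcongr
      norm_num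
    have h2k : (0 : ℝ) < 2 ^ k := by positivity
    calc (2 : ℝ) ^ k * nB (c.G b) ((2 : ℝ) • (v (k + 1) - b) - (v k - b))
        ≤ 2 ^ k * (Real.sqrt (3 * AA c * (σ / 2 ^ k)) * nB (c.G b) (v k - b)) := by gcongr
      _ ≤ 2 ^ k * ((s * (3 / 4) ^ k) * (2 * (D / 2 ^ k))) := by
          have := nB_nonneg (c.G b) (v k - b)
          have := hsize k
          gcongr
      _ = 2 * D * s * (3 / 4) ^ k := by field_simp
  have key : ∀ k, nB (c.G b) ((2 : ℝ) ^ k • (v k - b) - (v 0 - b)) ≤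
      8 * D * s * (1 - (3 / 4) ^ k) := by
    intro k
    induction k with
    | zero =>
      simp [nB]
    | succ k ih =>
      have h := nB_tri (c.G b) hsym hp ((2 : ℝ) ^ (k + 1) • (v (k + 1) - b))
        ((2 : ℝ) ^ k • (v k - b)) (v 0 - b)
      have h2 := hstep k
      have e : 8 * D * s * (1 - (3 / 4) ^ (k + 1)) =
          2 * D * s * (3 / 4) ^ k + 8 * D * s * (1 - (3 / 4) ^ k) := by
        rw [pow_succ]; ring
      rw [e]
      linarith
  intro k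
  refine (key k).trans ?_
  have h1 : 0 ≤ 8 * D * s := by positivity
  have h2 : (0 : ℝ) ≤ (3 / 4) ^ k := by positivity
  nlinarith

end Dir

end Pool.Agent.Run7.h981
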