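import Pool.Agent.Run7.h981.Rigid2

/-! Rigidity of isometries tangent to the identity. -/

set_option autoImplicit false

namespace Pool.Agent.Run7.h981

open Metric Set Pool.Agent.Helper381

universe u v

/-- a map is tangent to the identity at `x` -/
def Tan {M : Type u} [MetricSpace M] (θ : M → M) (x : M) : Prop :=
  ∀ ε > 0, ∃ δ > 0, ∀ y, dist x y < δ → dist y (θ y) ≤ ε * dist x y

section Tan

variable {M : Type u} [MetricSpace M]

theorem Tan.one (x : M) : Tan (1 : M ≃ᵢ M) x := by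
  intro ε hε
  refine ⟨1, one_pos, fun y _ => ?_⟩
  rw [IsometryEquiv.coe_one, id, dist_self]
  positivity

theorem Tan.mul {θ θ' : M ≃ᵢ M} {x : M} (hx' : θ' x = x) (h : Tan θ x) (h' : Tan θ' x) :
    Tan (θ * θ' : M ≃ᵢ M) x := by
  intro ε hε
  obtain ⟨δ, hδ, h1⟩ := h (ε / 2) (by linarith)
  obtain ⟨δ', hδ', h2⟩ := h' (ε / 2) (by linarith)
  refine ⟨min δ δ', lt_min hδ hδ', fun y hy => ?_⟩
  have e1 : dist x (θ' y) = dist x y := by
    calc dist x (θ' y) = dist (θ' x) (θ' y) := by rw [hx']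
      _ = dist x y := θ'.isometry.dist_eq _ _
  have e2 := h1 (θ' y) (by rw [e1]; exact lt_of_lt_of_le hy (min_le_left _ _))
  have e3 := h2 y (lt_of_lt_of_le hy (min_le_right _ _))
  have e4 := dist_triangle y (θ' y) (θ (θ' y))
  rw [e1] at e2
  change dist y (θ (θ' y)) ≤ _
  linarith

theorem Tan.inv {θ : M ≃ᵢ M} {x : M} (hx : θ x = x) (h : Tan θ x) :
    Tan (θ⁻¹ : M ≃ᵢ M) x := by
  intro ε hε
  obtain ⟨δ, hδ, h1⟩ := h ε hε
  refine ⟨δ, hδ, fun y hy => ?_⟩
  have hy' : θ (θ⁻¹ y) = y := θ.apply_symm_apply y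
  have e1 : dist x (θ⁻¹ y) = dist x y := by
    calc dist x (θ⁻¹ y) = dist (θ x) (θ (θ⁻¹ y)) := (θ.isometry.dist_eq _ _).symm
      _ = dist x y := by rw [hx, hy']
  have e2 := h1 (θ⁻¹ y) (by rw [e1]; exact hy)
  rw [hy', e1] at e2
  rw [dist_comm]
  exact e2

theorem fix_inv {θ : M ≃ᵢ M} {x : M} (hx : θ x = x) : (θ⁻¹ : M ≃ᵢ M) x = x := by
  apply θ.injective
  rw [hx]
  exact θ.apply_symm_apply x

theorem Tan.zpow {θ : M ≃ᵢ M} {x : M} (hx : θ x = x) (h : Tan θ x) (n : ℤ) :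
    (θ ^ n : M ≃ᵢ M) x = x ∧ Tan (θ ^ n : M ≃ᵢ M) x := by
  have hpow : ∀ (g : M ≃ᵢ M), g x = x → Tan g x → ∀ m : ℕ,
      (g ^ m : M ≃ᵢ M) x = x ∧ Tan (g ^ m : M ≃ᵢ M) x := by
    intro g hg hgt m
    induction m with
    | zero => rw [pow_zero]; exact ⟨rfl, Tan.one x⟩
    | succ m ih =>
      rw [pow_succ]
      refine ⟨?_, Tan.mul hg ih.2 hgt⟩
      change (g ^ m : M ≃ᵢ M) (g x) = x
      rw [hg, ih.1]
  rcases n with n | n
  · rw [Int.ofNat_eq_natCast, zpow_natCast]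
    exact hpow θ hx h n
  · rw [zpow_negSucc, ← inv_pow]
    exact hpow θ⁻¹ (fix_inv hx) (Tan.inv hx h) (n + 1)

end Tan

section K3

variable {M : Type u} {E : Type v} [MetricSpace M] [NormedAddCommGroup E] [NormedSpace ℝ E]
  (c : Loc M E)

theorem exists_sigma {ε : ℝ} (hε : 0 < ε) : ∃ σ : ℝ, 0 < σ ∧ σ ≤ r₂ c ∧ AA c * σ ≤ ε ∧
    AA c * σ ≤ 1 ∧ Real.sqrt (3 * AA c * σ) ≤ ε := by
  have hA := AApos c
  refine ⟨min (r₂ c) (min (ε / AA c) (min (1 / AA c) (ε ^ 2 / (3 * AA c)))), ?_, min_le_left _ _,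
    ?_, ?_, ?_⟩
  · have := r₂pos c
    positivity
  · calc AA c * _ ≤ AA c * (ε / AA c) := by
          gcongr
          exact (min_le_right _ _).trans (min_le_left _ _)
      _ = ε := by field_simp
  · calc AA c * _ ≤ AA c * (1 / AA c) := by
          gcongr
          exact (min_le_right _ _).trans ((min_le_right _ _).trans (min_le_left _ _))
      _ = 1 := by field_simp
  · apply Real.sqrt_le_iff.mpr
    refine ⟨hε.le, ?_⟩
    calc 3 * AA c * _ ≤ 3 * AA c * (ε ^ 2 / (3 * AA c)) := by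
          gcongr
          exact (min_le_right _ _).trans ((min_le_right _ _).trans (min_le_right _ _))
      _ = ε ^ 2 := by field_simp

theorem K3 (hmid : ∀ x y : M, ∃ m : M, dist x m = dist x y / 2 ∧ dist m y = dist x y / 2)
    {ε : ℝ} (hε : 0 < ε) : ∃ δ > 0, ∀ θ : M ≃ᵢ M, θ (c.ψ c.x₀) = c.ψ c.x₀ →
      Tan θ (c.ψ c.x₀) → ∀ y, dist (c.ψ c.x₀) y < δ →
        dist y (θ y) ≤ ε * dist (c.ψ c.x₀) y := by
  obtain ⟨σ, hσ0, hσ, -, hA, hs⟩ := exists_sigma c (show 0 < ε / 32 by positivity)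
  have hL := c.one_le_L
  have hτ := c.τpos
  refine ⟨min c.τ (σ / c.L), by positivity, ?_⟩
  intro θ hx ht y hy
  set x := c.ψ c.x₀ with hxdef
  set D := dist x y with hD
  have hD0 : 0 ≤ D := dist_nonneg
  have hDτ : D < c.τ := lt_of_lt_of_le hy (min_le_left _ _)
  have hDσ : c.L * D < σ := by
    have := lt_of_lt_of_le hy (min_le_right _ _)
    rw [lt_div_iff₀ (by linarith)] at this
    linarith
  obtain ⟨z, hz, hz0, -⟩ := exists_mchain hmid x y univ trivial (fun _ _ _ _ _ _ => trivial)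
  have hθ : ∀ w, dist x (θ w) = dist x w := by
    intro w
    calc dist x (θ w) = dist (θ x) (θ w) := by rw [hx]
      _ = dist x w := θ.isometry.dist_eq _ _
  have hz' : IsMChain x (fun k => θ (z k)) := by
    constructor
    · intro k
      rw [hθ, hθ]
      exact hz.h1 k
    · intro k
      rw [hθ, θ.isometry.dist_eq]
      exact hz.h2 k
  have hb : c.x₀ ∈ ball c.x₀ (r₂ c) := mem_ball_self (r₂pos c)
  obtain ⟨v, hv, hvN⟩ := chainlem c hσ0 hσ hA hb hz (by rw [hz0]; exact hDσ)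
    (by rw [hz0]; exact hDτ)
  obtain ⟨v', hv', hvN'⟩ := chainlem c hσ0 hσ hA hb hz'
    (by simp only [hz0]; rw [← hxdef, hθ]; exact hDσ)
    (by simp only [hz0]; rw [← hxdef, hθ]; exact hDτ)
  simp only [hz0] at hvN hvN'
  rw [← hxdef, hθ] at hvN'
  rw [← hxdef] at hvN
  set s := Real.sqrt (3 * AA c * σ) with hsdef
  have hb' := bmem c hb
  have hsym := c.symm c.x₀ hb'
  have hp := c.nonneg hb'
  have hσk : ∀ k : ℕ, σ / 2 ^ k ≤ σ := fun k =>
    div_le_self hσ0.le (one_le_pow₀ (by norm_num))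
  have key : ∀ ε' > 0, dist y (θ y) ≤ 32 * D * s + 4 * ε' * D := by
    intro ε' hε'
    obtain ⟨δ, hδ, hδ'⟩ := ht ε' hε'
    -- find k with D / 2^k < δ
    obtain ⟨k, hk⟩ : ∃ k : ℕ, D / 2 ^ k < δ := by
      obtain ⟨k, hk⟩ := pow_unbounded_of_one_lt (D / δ) (show (1 : ℝ) < 2 by norm_num)
      refine ⟨k, ?_⟩
      rw [div_lt_iff₀ hδ] at hk
      rw [div_lt_iff₀ (by positivity)]
      linarith
    have hzk : dist x (z k) = D / 2 ^ k := by rw [hz.dist_eq k, hz0]
    have h1 := hδ' (z k) (by rw [hzk]; exact hk)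
    rw [hzk] at h1
    have hvk : v k ∈ ball c.x₀ σ := ball_subset_ball (hσk k) (hv k).1
    have hvk' : v' k ∈ ball c.x₀ σ := ball_subset_ball (hσk k) (hv' k).1
    have hv0 : v 0 ∈ ball c.x₀ σ := ball_subset_ball (hσk 0) (hv 0).1
    have hv0' : v' 0 ∈ ball c.x₀ σ := ball_subset_ball (hσk 0) (hv' 0).1
    have h2 := nB_le_dist c hσ0.le hσ hA hb hvk hvk'
    rw [(hv k).2, (hv' k).2] at h2
    have h3 := dist_le_nB c hσ0.le hσ hA hb hv0 hv0'
    rw [(hv 0).2, (hv' 0).2, hz0] at h3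
    have h4 : nB (c.G c.x₀) (v' 0 - v 0) ≤
        8 * D * s + (2 ^ k * nB (c.G c.x₀) (v' k - v k) + 8 * D * s) := by
      have e : v' 0 - v 0 = (v' 0 - c.x₀ - (2 : ℝ) ^ k • (v' k - c.x₀)) +
          ((2 : ℝ) ^ k • (v' k - v k) + ((2 : ℝ) ^ k • (v k - c.x₀) - (v 0 - c.x₀))) := by
        module
      rw [e]
      have f1 := nB_add (c.G c.x₀) hsym hp (v' 0 - c.x₀ - (2 : ℝ) ^ k • (v' k - c.x₀))
        ((2 : ℝ) ^ k • (v' k - v k) + ((2 : ℝ) ^ k • (v k - c.x₀) - (v 0 - c.x₀)))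
      have f2 := nB_add (c.G c.x₀) hsym hp ((2 : ℝ) ^ k • (v' k - v k))
        ((2 : ℝ) ^ k • (v k - c.x₀) - (v 0 - c.x₀))
      rw [nB_smul, abs_of_pos (by positivity)] at f2
      have f3 := hvN' k
      rw [nB_sub_comm] at f3
      have f4 := hvN k
      linarith
    have h5 : 2 ^ k * nB (c.G c.x₀) (v' k - v k) ≤ 2 * ε' * D := by
      have h2k : (0 : ℝ) < 2 ^ k := by positivity
      calc 2 ^ k * nB (c.G c.x₀) (v' k - v k) ≤ 2 ^ k * (2 * (ε' * (D / 2 ^ k))) := by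
            gcongr
            exact h2.trans (by linarith)
        _ = 2 * ε' * D := by field_simp
    linarith
  have h6 : dist y (θ y) ≤ 32 * D * s := by
    apply le_of_forall_pos_le_add
    intro e he
    have h7 := key (e / (4 * (D + 1))) (by positivity)
    have h8 : 4 * (e / (4 * (D + 1))) * D ≤ e := by
      rw [show 4 * (e / (4 * (D + 1))) * D = e * (D / (D + 1)) by field_simp]
      have : D / (D + 1) ≤ 1 := by
        rw [div_le_one (by linarith)]; linarith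
      nlinarith
    linarith
  calc dist y (θ y) ≤ 32 * D * s := h6
    _ ≤ 32 * D * (ε / 32) := by gcongr
    _ = ε * D := by ring

end K3

section K4

variable {M : Type u} {E : Type v} [MetricSpace M] [NormedAddCommGroup E] [NormedSpace ℝ E]
  {R : ℝ}

/-- an isometry with a short orbit has a fixed point nearby -/
theorem K4 (G : Geo M E R) [CompactSpace M] (θ : M ≃ᵢ M) (y : M) {η : ℝ} (hη : η < R)
    (h : ∀ n : ℤ, dist y ((θ ^ n : M ≃ᵢ M) y) ≤ η) : ∃ q, θ q = q ∧ dist y q ≤ η := by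
  let Φ : M → ℝ := fun w => ⨆ n : ℤ, dist w ((θ ^ n : M ≃ᵢ M) y)
  have hbd : ∀ w, BddAbove (range fun n : ℤ => dist w ((θ ^ n : M ≃ᵢ M) y)) := by
    intro w
    refine ⟨dist w y + η, ?_⟩
    rintro _ ⟨n, rfl⟩
    have := dist_triangle w y ((θ ^ n : M ≃ᵢ M) y)
    have := h n
    simp only
    linarith
  have hle : ∀ w (n : ℤ), dist w ((θ ^ n : M ≃ᵢ M) y) ≤ Φ w := fun w n => le_ciSup (hbd w) n
  have hLip : ∀ w w', Φ w ≤ Φ w' + dist w w' := by
    intro w w'
    apply ciSup_le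
    intro n
    have := dist_triangle w w' ((θ ^ n : M ≃ᵢ M) y)
    have := hle w' n
    linarith
  have hcont : Continuous Φ := by
    have : LipschitzWith 1 Φ := by
      apply LipschitzWith.of_dist_le_mul
      intro w w'
      rw [Real.dist_eq, abs_le, NNReal.coe_one, one_mul]
      have h1 := hLip w w'
      have h2 := hLip w' w
      rw [dist_comm w' w] at h2
      constructor <;> linarith
    exact this.continuous
  obtain ⟨q, -, hq⟩ := isCompact_univ.exists_isMinOn ⟨y, mem_univ y⟩ hcont.continuousOn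
  have hmin : ∀ w, Φ q ≤ Φ w := fun w => hq (mem_univ w)
  have hqη : Φ q ≤ η := (hmin y).trans (ciSup_le h)
  have hinv : Φ (θ q) = Φ q := by
    change (⨆ n : ℤ, dist (θ q) ((θ ^ n : M ≃ᵢ M) y)) = ⨆ n : ℤ, dist q ((θ ^ n : M ≃ᵢ M) y)
    apply (Equiv.addRight (-1 : ℤ)).iSup_congr
    intro n
    have e : (θ ^ n : M ≃ᵢ M) y = θ ((θ ^ (n + -1) : M ≃ᵢ M) y) := by
      have : (θ ^ n : M ≃ᵢ M) = θ * θ ^ (n + -1) := by
        rw [← zpow_one_add]
        congr 1
        ring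
      rw [this]
      rfl
    rw [e]
    exact (θ.isometry.dist_eq _ _).symm
  refine ⟨q, ?_, ?_⟩
  · by_contra hne
    obtain ⟨d, hd⟩ := G.chart y
    have h0 : ∀ w, dist w y ≤ Φ w := by
      intro w
      have := hle w 0
      rwa [zpow_zero] at this
    have hqW : q ∈ d.W := hd (by
      rw [mem_ball]
      have := h0 q
      linarith)
    have hqW' : θ q ∈ d.W := hd (by
      rw [mem_ball]
      have := h0 (θ q)
      rw [hinv] at this
      linarith)
    have hzW : ∀ n : ℤ, (θ ^ n : M ≃ᵢ M) y ∈ d.W := fun n => hd (by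
      rw [mem_ball, dist_comm]
      exact lt_of_le_of_lt (h n) hη)
    have hQ := d.Q_pos_of_ne hqW' hqW hne
    set Q := d.Q (d.φ (θ q) - d.φ q) with hQdef
    have hΦ0 : 0 ≤ Φ q := le_trans dist_nonneg (h0 q)
    have hm : Φ (d.mid (θ q) q) ≤ Real.sqrt (Φ q ^ 2 - 3 / 16 * Q) := by
      apply ciSup_le
      intro n
      apply Real.le_sqrt_of_sq_le
      have h1 := d.sc' (hzW n) hqW' hqW
      have h2 : dist ((θ ^ n : M ≃ᵢ M) y) (θ q) ≤ Φ q := by
        rw [dist_comm, ← hinv]; exact hle _ _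
      have h3 : dist ((θ ^ n : M ≃ᵢ M) y) q ≤ Φ q := by
        rw [dist_comm]; exact hle _ _
      have h4 := pow_le_pow_left₀ dist_nonneg h2 2
      have h5 := pow_le_pow_left₀ dist_nonneg h3 2
      rw [dist_comm]
      linarith
    have hlt : Real.sqrt (Φ q ^ 2 - 3 / 16 * Q) < Φ q := by
      have hpos : 0 < Φ q := by
        rcases hΦ0.eq_or_lt with h0' | h0'
        · exfalso
          apply hne
          have e1 := h0 q
          have e2 := h0 (θ q)
          rw [hinv, ← h0'] at e2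
          rw [← h0'] at e1
          have e3 := dist_le_zero.mp e1
          have e4 := dist_le_zero.mp e2
          rw [e3, ← e3, e4, e3]
        · exact h0'
      rw [Real.sqrt_lt' hpos]
      linarith
    have := hmin (d.mid (θ q) q)
    linarith
  · have := hle q 0
    rw [zpow_zero] at this
    rw [dist_comm]
    exact this.trans hqη

end K4

end Pool.Agent.Run7.h981
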