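import Pool.Agent.Run7.h981.Rigid3

/-! An isometry tangent to the identity at a fixed point is the identity. -/

set_option autoImplicit false

namespace Pool.Agent.Run7.h981

open Metric Set Pool.Agent.Helper381

universe u v

section Main

variable {M : Type u} {E : Type v} [MetricSpace M] [NormedAddCommGroup E] [NormedSpace ℝ E]
  {R : ℝ}

theorem norm_le_nB (c : Loc M E) {b : E} (hb : b ∈ ball c.x₀ (r₂ c)) (w : E) :
    ‖w‖ ≤ (1 / Real.sqrt c.lam) * nB (c.G b) w := by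
  have hl := c.lampos
  have h := c.lower b (bmem c hb) w
  have hs := Real.sqrt_pos.mpr hl
  rw [div_mul_eq_mul_div, one_mul, le_div_iff₀ hs]
  unfold nB
  apply Real.le_sqrt_of_sq_le
  rw [mul_pow, Real.sq_sqrt hl.le]
  linarith

/-- **rigidity** -/
theorem rigid (G : Geo M E R) [CompactSpace M] [PreconnectedSpace M] (c : Loc M E)
    (θ : M ≃ᵢ M) (hx : θ (c.ψ c.x₀) = c.ψ c.x₀) (ht : Tan θ (c.ψ c.x₀)) : ∀ y, θ y = y := by
  classical
  set x := c.ψ c.x₀ with hxdef
  apply G.eq_id (x := x)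
  have hR := G.Rpos
  have hL := c.one_le_L
  have hτ := c.τpos
  have hr2 := r₂pos c
  obtain ⟨σ, hσ0, hσ, hAs, hA, hs⟩ := exists_sigma c (show (0 : ℝ) < 1 / 384 by norm_num)
  obtain ⟨δ₂, hδ₂, hK3⟩ := K3 c G.midpt (show (0 : ℝ) < 1 / 128 by norm_num)
  set ν := 1 / Real.sqrt c.lam with hν
  have hν0 : 0 < ν := by
    have := Real.sqrt_pos.mpr c.lampos
    positivity
  -- choice of the scale ρ
  obtain ⟨ρ, hρ0, hρδ, hρR, hρσ, hρν, hρτ⟩ : ∃ ρ : ℝ, 0 < ρ ∧ 4 * ρ < δ₂ ∧ 4 * ρ < R ∧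
      3 * c.L * ρ < σ ∧ ν * ρ < σ ∧ 3 * ρ < c.τ := by
    refine ⟨min (δ₂ / 8) (min (R / 8) (min (σ / (6 * c.L)) (min (σ / (2 * ν)) (c.τ / 6)))),
      by positivity, ?_, ?_, ?_, ?_, ?_⟩
    · have := min_le_left (δ₂ / 8) (min (R / 8) (min (σ / (6 * c.L)) (min (σ / (2 * ν)) (c.τ / 6))))
      linarith
    · have := (min_le_right (δ₂ / 8) _).trans
        (min_le_left (R / 8) (min (σ / (6 * c.L)) (min (σ / (2 * ν)) (c.τ / 6))))
      linarith
    · have := (min_le_right (δ₂ / 8) _).trans ((min_le_right (R / 8) _).trans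
        (min_le_left (σ / (6 * c.L)) (min (σ / (2 * ν)) (c.τ / 6))))
      calc 3 * c.L * _ ≤ 3 * c.L * (σ / (6 * c.L)) := by gcongr
        _ = σ / 2 := by field_simp; norm_num
        _ < σ := by linarith
    · have := (min_le_right (δ₂ / 8) _).trans ((min_le_right (R / 8) _).trans
        ((min_le_right (σ / (6 * c.L)) _).trans (min_le_left (σ / (2 * ν)) (c.τ / 6))))
      calc ν * _ ≤ ν * (σ / (2 * ν)) := by gcongr
        _ = σ / 2 := by field_simp
        _ < σ := by linarith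
    · have := (min_le_right (δ₂ / 8) _).trans ((min_le_right (R / 8) _).trans
        ((min_le_right (σ / (6 * c.L)) _).trans (min_le_right (σ / (2 * ν)) (c.τ / 6))))
      linarith
  -- choice of δ
  obtain ⟨δ, hδ0, hδρ, hδL, hδσ, hδτ⟩ : ∃ δ : ℝ, 0 < δ ∧ 2 * δ ≤ ρ ∧ 2 * c.L * δ < r₂ c ∧
      3 * c.L * δ < σ ∧ 2 * δ < c.τ := by
    refine ⟨min (ρ / 2) (min (r₂ c / (4 * c.L)) (min (σ / (6 * c.L)) (c.τ / 4))), by positivity,
      ?_, ?_, ?_, ?_⟩
    · have := min_le_left (ρ / 2) (min (r₂ c / (4 * c.L)) (min (σ / (6 * c.L)) (c.τ / 4)))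
      linarith
    · have := (min_le_right (ρ / 2) _).trans
        (min_le_left (r₂ c / (4 * c.L)) (min (σ / (6 * c.L)) (c.τ / 4)))
      calc 2 * c.L * _ ≤ 2 * c.L * (r₂ c / (4 * c.L)) := by gcongr
        _ = r₂ c / 2 := by field_simp; norm_num
        _ < r₂ c := by linarith
    · have := (min_le_right (ρ / 2) _).trans ((min_le_right (r₂ c / (4 * c.L)) _).trans
        (min_le_left (σ / (6 * c.L)) (c.τ / 4)))
      calc 3 * c.L * _ ≤ 3 * c.L * (σ / (6 * c.L)) := by gcongr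
        _ = σ / 2 := by field_simp; norm_num
        _ < σ := by linarith
    · have := (min_le_right (ρ / 2) _).trans ((min_le_right (r₂ c / (4 * c.L)) _).trans
        (min_le_right (σ / (6 * c.L)) (c.τ / 4)))
      linarith
  refine ⟨δ, hδ0, ?_⟩
  intro y hy
  by_contra hyF
  -- the fixed point set
  set F : Set M := {q | θ q = q} with hF
  have hFc : IsClosed F := isClosed_eq θ.continuous continuous_id
  have hxF : x ∈ F := hx
  obtain ⟨p, hpF, hpmin⟩ := hFc.isCompact.exists_isMinOn ⟨x, hxF⟩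
    (continuous_const.dist continuous_id : Continuous fun w => dist y w).continuousOn
  have hnear : ∀ q ∈ F, dist y p ≤ dist y q := fun q hq => hpmin hq
  have hyp : dist y p < δ := lt_of_le_of_lt (hnear x hxF) (by rw [dist_comm]; exact hy)
  have hyp0 : 0 < dist y p := by
    apply dist_pos.mpr
    rintro rfl
    exact hyF hpF
  have hxp : dist x p < 2 * δ := by
    have := dist_triangle x y p
    linarith
  -- coordinates
  have hx0r : c.x₀ ∈ ball c.x₀ c.r₁ := mem_ball_self c.r₁pos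
  obtain ⟨a, -, hay, han⟩ := c.in_chart hx0r (y := y) (by rw [← hxdef]; linarith)
  obtain ⟨b, -, hbp, hbn⟩ := c.in_chart hx0r (y := p) (by rw [← hxdef]; linarith)
  rw [← hxdef] at han hbn
  have hb : b ∈ ball c.x₀ (r₂ c) := by
    rw [mem_ball, dist_eq_norm]
    have : c.L * dist x p ≤ c.L * (2 * δ) := by gcongr
    linarith
  have hab : a ∈ ball b σ := by
    rw [mem_ball, dist_eq_norm]
    have e : a - b = (a - c.x₀) - (b - c.x₀) := by abel
    rw [e]
    have h1 := norm_sub_le (a - c.x₀) (b - c.x₀)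
    have h2 : c.L * dist x p ≤ c.L * (2 * δ) := by gcongr
    have h3 : c.L * dist x y ≤ c.L * δ := by gcongr
    linarith
  have hbb : b ∈ ball b σ := mem_ball_self hσ0
  have hb' := bmem c hb
  have hsym := c.symm b hb'
  have hp := c.nonneg hb'
  have hA0 := AApos c
  set N := nB (c.G b) with hN
  have hN0 : ∀ w, 0 ≤ N w := nB_nonneg _
  set h' := N (a - b) with hh'
  have hh'le : h' ≤ 2 * dist y p := by
    have := nB_le_dist c hσ0.le hσ hA hb hbb hab
    rw [hbp, hay, dist_comm] at this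
    exact this
  have hh'ge : dist y p ≤ 2 * h' := by
    have := dist_le_nB c hσ0.le hσ hA hb hbb hab
    rw [hbp, hay, dist_comm] at this
    exact this
  have hh'0 : 0 < h' := by linarith
  have hh'ρ : h' ≤ ρ := by linarith
  -- the far point
  set w := b + (ρ / h') • (a - b) with hw
  have hwb : w - b = (ρ / h') • (a - b) := by rw [hw]; abel
  have hNw : N (w - b) = ρ := by
    rw [hwb, hN, nB_smul, abs_of_pos (by positivity), ← hN, ← hh']
    field_simp
  have hwball : w ∈ ball b σ := by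
    rw [mem_ball, dist_eq_norm]
    have := norm_le_nB c hb (w - b)
    rw [← hN, hNw, ← hν] at this
    linarith
  have hpw : dist p (c.ψ w) ≤ 2 * ρ := by
    have := dist_le_nB c hσ0.le hσ hA hb hbb hwball
    rw [hbp, ← hN, hNw] at this
    exact this
  have hxw : dist x (c.ψ w) ≤ 4 * ρ := by
    have := dist_triangle x p (c.ψ w)
    linarith
  -- a fixed point close to it
  obtain ⟨q, hqF, hqw⟩ := K4 G θ (c.ψ w) (η := 1 / 128 * dist x (c.ψ w)) (by linarith) (by
    intro n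
    obtain ⟨h1, h2⟩ := Tan.zpow hx ht n
    exact hK3 _ h1 h2 _ (by rw [← hxdef]; linarith))
  have hqw' : dist (c.ψ w) q ≤ ρ / 32 := by linarith
  have hpq : dist p q ≤ 3 * ρ := by
    have := dist_triangle p (c.ψ w) q
    linarith
  obtain ⟨z, hz, hz0, hzF⟩ := exists_mchain G.midpt p q F hqF (by
    intro y' hy' m hle hm1 hm2
    have hlt : dist p y' < R := by linarith
    have hθp : θ p = p := hpF
    have hθy : θ y' = y' := hy'
    apply G.midpt_unique hlt _ _ hm1 hm2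
    · calc dist p (θ m) = dist (θ p) (θ m) := by rw [hθp]
        _ = dist p m := θ.isometry.dist_eq _ _
        _ = _ := hm1
    · calc dist (θ m) y' = dist (θ m) (θ y') := by rw [hθy]
        _ = dist m y' := θ.isometry.dist_eq _ _
        _ = _ := hm2)
  rw [← hbp] at hz
  obtain ⟨v, hv, hvN⟩ := chainlem c hσ0 hσ hA hb hz
    (by rw [hz0, hbp]; calc c.L * dist p q ≤ c.L * (3 * ρ) := by gcongr
          _ = 3 * c.L * ρ := by ring
          _ < σ := hρσ)
    (by rw [hz0, hbp]; linarith)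
  rw [hz0, hbp, ← hN] at hvN
  have hσk : ∀ k : ℕ, σ / 2 ^ k ≤ σ := fun k =>
    div_le_self hσ0.le (one_le_pow₀ (by norm_num))
  have hv0 : v 0 ∈ ball b σ := ball_subset_ball (hσk 0) (hv 0).1
  have hvw : N (v 0 - w) ≤ ρ / 16 := by
    have := nB_le_dist c hσ0.le hσ hA hb hwball hv0
    rw [(hv 0).2, hz0, ← hN] at this
    linarith
  have hdir : ∀ k, N ((2 : ℝ) ^ k • (v k - b) - (w - b)) ≤ ρ / 8 := by
    intro k
    have h1 := nB_tri (c.G b) hsym hp ((2 : ℝ) ^ k • (v k - b)) (v 0 - b) (w - b)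
    rw [← hN] at h1
    have e : v 0 - b - (w - b) = v 0 - w := by abel
    rw [e] at h1
    have h2 := hvN k
    have h3 : 8 * dist p q * Real.sqrt (3 * AA c * σ) ≤ 8 * (3 * ρ) * (1 / 384) := by gcongr
    linarith
  -- choose the scale
  obtain ⟨n, hn1, hn2⟩ := exists_nat_pow_near (x := ρ / h') (y := (2 : ℝ))
    (by rw [le_div_iff₀ hh'0]; linarith) (by norm_num)
  set k := n + 1 with hk
  have h2k : (0 : ℝ) < 2 ^ k := by positivity
  set s := ρ / h' / 2 ^ k with hs'
  have hs1 : 1 / 2 ≤ s := by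
    rw [hs', le_div_iff₀ h2k, hk, pow_succ]
    linarith
  have hs2 : s < 1 := by
    rw [hs', div_lt_one h2k]
    exact hn2
  have hkey : N (v k - a) ≤ 5 / 8 * h' := by
    have e : v k - a = (1 / 2 ^ k : ℝ) • ((2 : ℝ) ^ k • (v k - b) - (w - b)) +
        (s - 1) • (a - b) := by
      rw [hwb, hs', smul_sub, smul_smul, smul_smul]
      have e1 : (1 / 2 ^ k : ℝ) * 2 ^ k = 1 := by field_simp
      have e2 : (1 / 2 ^ k : ℝ) * (ρ / h') = ρ / h' / 2 ^ k := by ring
      rw [e1, e2]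
      module
    rw [e]
    have f1 := nB_add (c.G b) hsym hp ((1 / 2 ^ k : ℝ) • ((2 : ℝ) ^ k • (v k - b) - (w - b)))
      ((s - 1) • (a - b))
    rw [nB_smul, nB_smul, abs_of_pos (by positivity), abs_of_neg (by linarith), ← hN, ← hh'] at f1
    have f2 := hdir k
    have f3 : (1 / 2 ^ k : ℝ) * N ((2 : ℝ) ^ k • (v k - b) - (w - b)) ≤ 1 / 2 ^ k * (ρ / 8) := by
      gcongr
    have f4 : 1 / 2 ^ k * (ρ / 8) = s * h' / 8 := by
      rw [hs']; field_simp
    rw [f4] at f3
    refine f1.trans ?_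
    nlinarith
  have hvk : v k ∈ ball b σ := ball_subset_ball (hσk k) (hv k).1
  obtain ⟨-, g1⟩ := near c hσ0.le hσ hb hbb hab
  obtain ⟨g2, -⟩ := near c hσ0.le hσ hb hab hvk
  rw [hbp, hay, dist_comm] at g1
  rw [hay, (hv k).2] at g2
  have g3 : c.G b (a - b) (a - b) = h' ^ 2 := by rw [hh', hN, nB_sq _ hp]
  have g4 : c.G b (v k - a) (v k - a) = N (v k - a) ^ 2 := by rw [hN, nB_sq _ hp]
  have g5 := hnear _ (hzF k)
  have g6 : N (v k - a) ^ 2 ≤ (5 / 8 * h') ^ 2 := pow_le_pow_left₀ (hN0 _) hkey 2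
  have g7 : dist y p ^ 2 ≤ dist y (z k) ^ 2 := pow_le_pow_left₀ dist_nonneg g5 2
  rw [g3] at g1
  rw [g4] at g2
  set α := AA c * σ with hα
  have hα0 : 0 < α := by positivity
  have g8 : dist y p ^ 2 ≤ (1 + α) * (25 / 64 * ((1 + α) * dist y p ^ 2)) := by
    calc dist y p ^ 2 ≤ dist y (z k) ^ 2 := g7
      _ ≤ (1 + α) * N (v k - a) ^ 2 := g2
      _ ≤ (1 + α) * (5 / 8 * h') ^ 2 := by gcongr
      _ = (1 + α) * (25 / 64 * h' ^ 2) := by ring
      _ ≤ _ := by gcongr
  have g9 : 0 < dist y p ^ 2 := by positivity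
  have g10 : (1 + α) * (25 / 64 * (1 + α)) < 1 := by nlinarith
  nlinarith

end Main

end Pool.Agent.Run7.h981
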