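import Pool.Agent.Run7.h981.Rigid4
import Pool.Agent.Helper381.Riem3

/-! Isometric symmetries with differential `-1` are symmetries in the metric sense. -/

set_option autoImplicit false

namespace Pool.Agent.Run7.h981

open Metric Set Pool.Agent.Helper381 Bundle Manifold
open scoped ContDiff Topology

universe u v

theorem surj_of_isometry {M : Type u} [MetricSpace M] [CompactSpace M] {f : M → M}
    (hf : Isometry f) : Function.Surjective f := by
  intro y
  by_contra hy
  have hcl : IsClosed (range f) := (isCompact_range hf.continuous).isClosed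
  have hy' : y ∈ (range f)ᶜ := fun ⟨x, hx⟩ => hy ⟨x, hx⟩
  obtain ⟨ε, hε, hball⟩ := Metric.isOpen_iff.mp hcl.isOpen_compl y hy'
  have hfar : ∀ x, ε ≤ dist y (f x) := by
    intro x
    by_contra hlt
    push Not at hlt
    have : f x ∈ ball y ε := by rw [mem_ball, dist_comm]; exact hlt
    exact hball this ⟨x, rfl⟩
  have hit : ∀ n : ℕ, Isometry (f^[n]) := by
    intro n
    induction n with
    | zero => exact isometry_id
    | succ n ih => rw [Function.iterate_succ]; exact ih.comp hf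
  have hsep : ∀ m k : ℕ, ε ≤ dist (f^[m] y) (f^[m + (k + 1)] y) := by
    intro m k
    rw [Function.iterate_add_apply, (hit m).dist_eq, Function.iterate_succ_apply']
    exact hfar _
  obtain ⟨a, φ, hφ, hlim⟩ := CompactSpace.tendsto_subseq (fun n => f^[n] y)
  rw [Metric.tendsto_atTop] at hlim
  obtain ⟨N, hN⟩ := hlim (ε / 2) (by linarith)
  have h1 := hN N le_rfl
  have h2 := hN (N + 1) (Nat.le_succ N)
  have h3 : φ N < φ (N + 1) := hφ (Nat.lt_succ_self N)
  obtain ⟨k, hk⟩ := Nat.exists_eq_add_of_lt h3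
  have h4 := hsep (φ N) k
  have h5 : φ N + (k + 1) = φ (N + 1) := by omega
  rw [h5] at h4
  simp only [Function.comp] at h1 h2
  have := dist_triangle_right (f^[φ N] y) (f^[φ (N + 1)] y) a
  linarith

/-- an isometric self-map of a compact space is an isometric equivalence -/
noncomputable def isoEquiv {M : Type u} [MetricSpace M] [CompactSpace M] (f : M → M)
    (hf : Isometry f) : M ≃ᵢ M :=
  IsometryEquiv.mk (Equiv.ofBijective f ⟨hf.injective, surj_of_isometry hf⟩) hf

theorem isoEquiv_apply {M : Type u} [MetricSpace M] [CompactSpace M] (f : M → M)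
    (hf : Isometry f) (x : M) : isoEquiv f hf x = f x := rfl

section Loc

variable {M : Type u} {E : Type v} [MetricSpace M] [NormedAddCommGroup E] [NormedSpace ℝ E]
  {R : ℝ}

/-- symmetry from the first-order behaviour in a chart -/
theorem isSymm_of_chart (G : Geo M E R) [CompactSpace M] [PreconnectedSpace M] (c : Loc M E)
    (s : M ≃ᵢ M) (hx : s (c.ψ c.x₀) = c.ψ c.x₀)
    (hd : ∀ ε > 0, ∃ δ > 0, ∀ v, ‖v - c.x₀‖ < δ →
      ‖(c.φ (s (c.ψ v)) - c.x₀) + (v - c.x₀)‖ ≤ ε * ‖v - c.x₀‖) :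
    IsSymmetryAt (c.ψ c.x₀) s := by
  set x := c.ψ c.x₀ with hxdef
  have hL := c.one_le_L
  have hτ := c.τpos
  have hr1 := c.r₁pos
  have hx0r : c.x₀ ∈ ball c.x₀ c.r₁ := mem_ball_self hr1
  have hsx : ∀ w, dist x (s w) = dist x w := by
    intro w
    calc dist x (s w) = dist (s x) (s w) := by rw [hx]
      _ = dist x w := s.isometry.dist_eq _ _
  -- coordinates of points close to x
  have hco : ∀ y, dist x y < c.τ → c.φ y ∈ ball c.x₀ c.r ∧ c.ψ (c.φ y) = y ∧
      ‖c.φ y - c.x₀‖ ≤ c.L * dist x y := by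
    intro y hy
    obtain ⟨w, hw, hwy, hwn⟩ := c.in_chart hx0r (y := y) hy
    have : c.φ y = w := by rw [← hwy, c.φψ w hw]
    rw [this]
    exact ⟨hw, hwy, hwn⟩
  -- first-order behaviour at points close to x
  have hd' : ∀ ε > 0, ∃ δ > 0, δ ≤ c.τ ∧ c.L * δ ≤ c.r₁ ∧ ∀ y, dist x y < δ →
      ‖(c.φ (s y) - c.x₀) + (c.φ y - c.x₀)‖ ≤ ε * (c.L * dist x y) := by
    intro ε hε
    obtain ⟨δ, hδ, h⟩ := hd ε hε
    refine ⟨min c.τ (min (c.r₁ / c.L) (δ / c.L)), by positivity, min_le_left _ _, ?_, ?_⟩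
    · calc c.L * _ ≤ c.L * (c.r₁ / c.L) := by
            gcongr
            exact (min_le_right _ _).trans (min_le_left _ _)
        _ = c.r₁ := by field_simp
    · intro y hy
      obtain ⟨h1, h2, h3⟩ := hco y (lt_of_lt_of_le hy (min_le_left _ _))
      have h4 : ‖c.φ y - c.x₀‖ < δ := by
        refine lt_of_le_of_lt h3 ?_
        have h5 := lt_of_lt_of_le hy ((min_le_right _ _).trans (min_le_right _ _))
        rw [lt_div_iff₀ (by linarith)] at h5
        linarith
      have h6 := h (c.φ y) h4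
      rw [h2] at h6
      refine h6.trans ?_
      gcongr
  have htan : Tan (s * s : M ≃ᵢ M) x := by
    intro ε hε
    obtain ⟨δ, hδ, hδτ, hδr, h⟩ := hd' (ε / (2 * c.L ^ 2)) (by positivity)
    refine ⟨δ, hδ, fun y hy => ?_⟩
    change dist y (s (s y)) ≤ ε * dist x y
    have hy1 : dist x (s y) = dist x y := hsx y
    have hy2 : dist x (s (s y)) = dist x y := by rw [hsx, hsx]
    have e1 := h y hy
    have e2 := h (s y) (by rw [hy1]; exact hy)
    rw [hy1] at e2
    obtain ⟨-, a2, a3⟩ := hco y (by linarith)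
    obtain ⟨-, b2, b3⟩ := hco (s (s y)) (by rw [hy2]; linarith)
    rw [hy2] at b3
    have hyr : c.L * dist x y < c.r₁ := lt_of_lt_of_le (by gcongr) hδr
    have h1 := c.dist_le (x := c.φ y) (y := c.φ (s (s y)))
      (by rw [mem_ball, dist_eq_norm]; linarith) (by rw [mem_ball, dist_eq_norm]; linarith)
    rw [a2, b2] at h1
    have e3 : c.φ (s (s y)) - c.φ y =
        ((c.φ (s (s y)) - c.x₀) + (c.φ (s y) - c.x₀)) -
          ((c.φ (s y) - c.x₀) + (c.φ y - c.x₀)) := by abel
    have e4 : ‖c.φ (s (s y)) - c.φ y‖ ≤ 2 * (ε / (2 * c.L ^ 2) * (c.L * dist x y)) := by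
      rw [e3]
      refine (norm_sub_le _ _).trans ?_
      linarith
    calc dist y (s (s y)) ≤ c.L * ‖c.φ (s (s y)) - c.φ y‖ := h1
      _ ≤ c.L * (2 * (ε / (2 * c.L ^ 2) * (c.L * dist x y))) := by gcongr
      _ = ε * dist x y := by field_simp
  refine ⟨?_, hx, ?_⟩
  · have hxx : (s * s : M ≃ᵢ M) x = x := by
      change s (s x) = x
      rw [hx, hx]
    exact rigid G c (s * s) hxx htan
  · obtain ⟨δ, hδ, hδτ, hδr, h⟩ := hd' (1 / c.L) (by positivity)
    obtain ⟨δ', hδ', h'⟩ := hd 1 one_pos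
    refine ⟨min δ (δ' / c.L), by positivity, fun y hy hsy => ?_⟩
    have hxy : dist x y < δ := by rw [dist_comm]; exact lt_of_lt_of_le hy (min_le_left _ _)
    obtain ⟨-, a2, a3⟩ := hco y (by linarith)
    have h4 : ‖c.φ y - c.x₀‖ < δ' := by
      refine lt_of_le_of_lt a3 ?_
      have h5 := lt_of_lt_of_le hy (min_le_right _ _)
      rw [lt_div_iff₀ (by linarith)] at h5
      rw [dist_comm]
      linarith
    have h6 := h' (c.φ y) h4
    rw [a2, hsy, one_mul] at h6
    have h7 : (c.φ y - c.x₀) + (c.φ y - c.x₀) = (2 : ℝ) • (c.φ y - c.x₀) := by module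
    rw [h7, norm_smul] at h6
    have h8 : ‖(2 : ℝ)‖ = 2 := by norm_num
    rw [h8] at h6
    have h9 : ‖c.φ y - c.x₀‖ = 0 := le_antisymm (by linarith) (norm_nonneg _)
    have h10 : c.φ y = c.x₀ := sub_eq_zero.mp (norm_eq_zero.mp h9)
    rw [← a2, h10]

end Loc

section Riem

variable {E : Type v} [NormedAddCommGroup E] [NormedSpace ℝ E] [FiniteDimensional ℝ E]
  {M : Type u} [MetricSpace M] [ChartedSpace E M] [IsManifold 𝓘(ℝ, E) ∞ M]
  [RiemannianBundle (fun (x : M) ↦ TangentSpace 𝓘(ℝ, E) x)]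
  [IsContMDiffRiemannianBundle 𝓘(ℝ, E) ∞ E (fun (x : M) ↦ TangentSpace 𝓘(ℝ, E) x)]
  [IsRiemannianManifold 𝓘(ℝ, E) M]

theorem exists_loc' (p : M) : ∃ c : Loc M E, c.ψ = psi p ∧ c.φ = extChartAt 𝓘(ℝ, E) p ∧
    c.x₀ = extChartAt 𝓘(ℝ, E) p p := by
  obtain ⟨g, hgx, hgt, hG⟩ := exists_metCoef (E := E) p
  refine ⟨{ toMetCoef := g, φ := extChartAt 𝓘(ℝ, E) p, ψ := psi p,
            φψ := fun v hv => (extChartAt 𝓘(ℝ, E) p).right_inv (hgt hv),
            isOpen_image := fun V hV hVo => isOpen_psi_image p (hV.trans hgt) hVo,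
            contφ := ?_, contψ := (continuousOn_extChartAt_symm p).mono hgt,
            up := ?_, lo := ?_ }, rfl, rfl, hgx⟩
  · apply (continuousOn_extChartAt p).mono
    rintro _ ⟨v, hv, rfl⟩
    exact (extChartAt 𝓘(ℝ, E) p).map_target (hgt hv)
  · intro x hx y hy K hK h
    apply up_chart p _ K hK
    · intro t ht
      have := h t ht
      rwa [hG] at this
    · intro t ht
      apply hgt
      have := (convex_ball g.x₀ g.r) hx hy (by linarith [ht.2] : (0 : ℝ) ≤ 1 - t) ht.1 (by ring)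
      have e : (1 - t) • x + t • y = x + t • (y - x) := by module
      rwa [e] at this
  · intro x hx s K hs hK h y hy
    obtain ⟨w, hw, hwy, hle⟩ := lo_chart p hgt hx hs hK (by
      intro w hw
      have := h w (by rw [hG]; exact hw)
      refine ⟨this.1, fun v => ?_⟩
      have h2 := this.2 v
      rwa [hG, hG] at h2) y hy
    exact ⟨w, hw, hwy, by rw [hG]; exact hle⟩

theorem isSymm_of_mfderiv {R : ℝ} (G : Geo M E R) [CompactSpace M] [PreconnectedSpace M]
    (s : M ≃ᵢ M) (x : M) (hx : s x = x)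
    (hd : HasMFDerivAt 𝓘(ℝ, E) 𝓘(ℝ, E) s x (-(ContinuousLinearMap.id ℝ E))) :
    IsSymmetryAt x s := by
  obtain ⟨c, hψ, hφ, hx0⟩ := exists_loc' (E := E) x
  have hψx : c.ψ c.x₀ = x := by
    rw [hψ, hx0]
    exact extChartAt_to_inv x
  have key := isSymm_of_chart G c s (by rw [hψx]; exact hx) (by
    intro ε hε
    have h1 : HasFDerivWithinAt (𝕜 := ℝ) (E := E) (F := E)
        (writtenInExtChartAt 𝓘(ℝ, E) 𝓘(ℝ, E) x s : E → E)
        (-(ContinuousLinearMap.id ℝ E) : E →L[ℝ] E) (range (𝓘(ℝ, E) : E → E))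
        (extChartAt 𝓘(ℝ, E) x x) := hd.2
    have hrange : range (𝓘(ℝ, E) : E → E) = univ := by simp
    rw [hrange, hasFDerivWithinAt_univ, hasFDerivAt_iff_isLittleO] at h1
    have h2 := h1.def hε
    rw [Metric.eventually_nhds_iff] at h2
    obtain ⟨δ, hδ, h3⟩ := h2
    refine ⟨δ, hδ, fun v hv => ?_⟩
    have h4 := h3 (y := v) (by rw [dist_eq_norm, ← hx0]; exact hv)
    rw [← hx0] at h4
    have h5 : writtenInExtChartAt 𝓘(ℝ, E) 𝓘(ℝ, E) x s v = c.φ (s (c.ψ v)) := by
      rw [hφ, hψ]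
      simp only [writtenInExtChartAt, Function.comp, hx]
    have h6 : writtenInExtChartAt 𝓘(ℝ, E) 𝓘(ℝ, E) x s c.x₀ = c.x₀ := by
      simp only [writtenInExtChartAt, Function.comp]
      rw [hx0, extChartAt_to_inv x, hx]
    rw [h5, h6] at h4
    have h7 : c.φ (s (c.ψ v)) - c.x₀ - (-(ContinuousLinearMap.id ℝ E)) (v - c.x₀) =
        (c.φ (s (c.ψ v)) - c.x₀) + (v - c.x₀) := by
      rw [ContinuousLinearMap.neg_apply, ContinuousLinearMap.id_apply, sub_neg_eq_add]
    rw [← h7]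
    exact h4)
  rw [hψx] at key
  exact key

end Riem

end Pool.Agent.Run7.h981
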