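import Pool.Agent.Helper438.Sc.P_RV_cells

/-! Vanishing of the reduced singular cohomology of open subsets of Euclidean space in degrees at
least the dimension, and of compact manifolds above the dimension. -/

set_option autoImplicit false

namespace Pool.Agent.Run7.h981

open Pool.Agent.Helper438.Sc Set Topology

universe v

noncomputable section

/-- an open box -/
def bx {d : ℕ} (p : (Fin d → ℝ) × (Fin d → ℝ)) : Set (Fin d → ℝ) :=
  {z | ∀ i, p.1 i < z i ∧ z i < p.2 i}

/-- a finite union of open boxes -/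
def bxU {d : ℕ} (F : Finset ((Fin d → ℝ) × (Fin d → ℝ))) : Set (Fin d → ℝ) :=
  {z | ∃ p ∈ F, z ∈ bx p}

theorem isOpen_bx {d : ℕ} (p : (Fin d → ℝ) × (Fin d → ℝ)) : IsOpen (bx p) := by
  have : bx p = ⋂ i, {z : Fin d → ℝ | p.1 i < z i ∧ z i < p.2 i} := by
    ext z; simp [bx]
  rw [this]
  apply isOpen_iInter_of_finite
  intro i
  exact (isOpen_lt continuous_const (continuous_apply i)).inter
    (isOpen_lt (continuous_apply i) continuous_const)

theorem isOpen_bxU {d : ℕ} (F : Finset ((Fin d → ℝ) × (Fin d → ℝ))) : IsOpen (bxU F) := by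
  have : bxU F = ⋃ p ∈ F, bx p := by
    ext z; simp [bxU]
  rw [this]
  exact isOpen_biUnion fun p _ => isOpen_bx p

theorem convex_bx {d : ℕ} (p : (Fin d → ℝ) × (Fin d → ℝ)) : Convex ℝ (bx p) := by
  have : bx p = Set.pi univ (fun i => Ioo (p.1 i) (p.2 i)) := by
    ext z; simp [bx]
  rw [this]
  exact convex_pi fun i _ => convex_Ioo _ _

theorem RV_convex {E : Type} [AddCommGroup E] [Module ℝ E] [TopologicalSpace E]
    [ContinuousAdd E] [ContinuousSMul ℝ E] (k : Type v) [CommRing k] {s : Set E}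
    (hs : Convex ℝ s) (q : ℕ) : RV k s q := by
  by_cases h : s.Nonempty
  · have := hs.contractibleSpace h
    exact RV_contractible k q
  · rw [Set.not_nonempty_iff_eq_empty] at h
    subst h
    exact zRV_empty k q

/-- The staircase set over a family of boxes. -/
theorem RV_stair {d : ℕ} (k : Type v) [CommRing k] {ι : Type} (G : Finset ι) (l : ℝ) (r : ι → ℝ)
    (hr : ∀ p ∈ G, l < r p) (C : ι → Set (Fin d → ℝ)) (q : ℕ)
    (h : RV k {y : Fin d → ℝ | ∃ p ∈ G, y ∈ C p} q) :
    RV k {z : Fin (d + 1) → ℝ | ∃ p ∈ G, (l < z 0 ∧ z 0 < r p) ∧ (fun i => z (Fin.succ i)) ∈ C p}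
      q := by
  have hg : ∃ g, l < g ∧ ∀ p ∈ G, g < r p := by
    have h1 : ∀ᶠ g in 𝓝[>] l, ∀ p ∈ G, g < r p := by
      rw [Filter.eventually_all_finset]
      intro p hp
      exact mem_nhdsWithin_of_mem_nhds (Iio_mem_nhds (hr p hp))
    have h2 : ∀ᶠ g in 𝓝[>] l, l < g := self_mem_nhdsWithin
    obtain ⟨g, hg1, hg2⟩ := (h2.and h1).exists
    exact ⟨g, hg1, hg2⟩
  obtain ⟨g, hg1, hg2⟩ := hg
  set A : Set (Fin (d + 1) → ℝ) :=
    {z | ∃ p ∈ G, (l < z 0 ∧ z 0 < r p) ∧ (fun i => z (Fin.succ i)) ∈ C p} with hA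
  set B : Set (Fin d → ℝ) := {y | ∃ p ∈ G, y ∈ C p} with hB
  have hs : Continuous (fun z : A => (fun i : Fin d => z.1 (Fin.succ i))) :=
    continuous_pi fun i => (continuous_apply (Fin.succ i)).comp continuous_subtype_val
  have hsm : ∀ z : A, (fun i : Fin d => z.1 (Fin.succ i)) ∈ B := by
    intro z
    obtain ⟨p, hp, _, h2⟩ := z.2
    exact ⟨p, hp, h2⟩
  let s : C(A, B) := ⟨fun z => ⟨fun i => z.1 (Fin.succ i), hsm z⟩, hs.subtype_mk hsm⟩
  have hcons : Continuous (fun y : B => (Fin.cons g y.1 : Fin (d + 1) → ℝ)) := by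
    apply continuous_pi
    intro i
    refine Fin.cases ?_ (fun j => ?_) i
    · simp only [Fin.cons_zero]; exact continuous_const
    · simp only [Fin.cons_succ]
      exact (continuous_apply j).comp continuous_subtype_val
  have htm : ∀ y : B, (Fin.cons g y.1 : Fin (d + 1) → ℝ) ∈ A := by
    intro y
    obtain ⟨p, hp, h2⟩ := y.2
    refine ⟨p, hp, ?_, ?_⟩
    · rw [Fin.cons_zero]; exact ⟨hg1, hg2 p hp⟩
    · simpa using h2
  let t : C(B, A) := ⟨fun y => ⟨Fin.cons g y.1, htm y⟩, hcons.subtype_mk htm⟩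
  refine RV_retract k s t ?_ q h
  -- the homotopy
  let Hf : unitInterval × A → (Fin (d + 1) → ℝ) := fun w =>
    Fin.cons ((1 - (w.1 : ℝ)) * g + (w.1 : ℝ) * w.2.1 0) (fun i => w.2.1 (Fin.succ i))
  have Hcont : Continuous Hf := by
    apply continuous_pi
    intro i
    refine Fin.cases ?_ (fun j => ?_) i
    · simp only [Hf, Fin.cons_zero]
      have c1 : Continuous (fun a : unitInterval × A => (a.1 : ℝ)) :=
        continuous_subtype_val.comp continuous_fst
      have c2 : Continuous (fun a : unitInterval × A => a.2.1 0) :=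
        (continuous_apply 0).comp (continuous_subtype_val.comp continuous_snd)
      exact ((continuous_const.sub c1).mul continuous_const).add (c1.mul c2)
    · simp only [Hf, Fin.cons_succ]
      exact (continuous_apply (Fin.succ j)).comp (continuous_subtype_val.comp continuous_snd)
  have Hmem : ∀ w, Hf w ∈ A := by
    rintro ⟨⟨u, hu0, hu1⟩, z, p, hp, ⟨h1, h2⟩, h3⟩
    refine ⟨p, hp, ?_, ?_⟩
    · simp only [Hf, Fin.cons_zero]
      have h4 := hg2 p hp
      constructor
      · nlinarith [mul_nonneg hu0 (sub_nonneg.mpr h1.le),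
          mul_nonneg (sub_nonneg.mpr hu1) (sub_nonneg.mpr hg1.le)]
      · nlinarith [mul_nonneg hu0 (sub_nonneg.mpr h2.le),
          mul_nonneg (sub_nonneg.mpr hu1) (sub_nonneg.mpr h4.le)]
    · simpa [Hf] using h3
  refine ⟨⟨⟨fun w => ⟨Hf w, Hmem w⟩, Hcont.subtype_mk Hmem⟩, ?_, ?_⟩⟩
  · intro z
    apply Subtype.ext
    funext i
    refine Fin.cases ?_ (fun j => ?_) i
    · simp [Hf, t, s]
    · simp [Hf, t, s]
  · intro z
    apply Subtype.ext
    funext i
    refine Fin.cases ?_ (fun j => ?_) i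
    · simp [Hf]
    · simp [Hf]

/-- Finite unions of boxes have no reduced cohomology in degrees at least the dimension. -/
theorem RV_bxU (k : Type v) [CommRing k] : ∀ (d : ℕ) (F : Finset ((Fin d → ℝ) × (Fin d → ℝ)))
    (q : ℕ), d ≤ q → RV k (bxU F) q := by
  intro d
  induction d with
  | zero =>
    intro F q _
    apply RV_convex
    intro x hx y hy a b _ _ _
    have : a • x + b • y = x := Subsingleton.elim _ _
    rw [this]; exact hx
  | succ d ih =>
    intro F
    classical
    induction F using Finset.strongInduction with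
    | H F ihF =>
      intro q hq
      obtain ⟨q, rfl⟩ : ∃ q', q = q' + 1 := ⟨q - 1, by omega⟩
      have hdq : d ≤ q := by omega
      by_cases hF : F.Nonempty
      swap
      · rw [Finset.not_nonempty_iff_eq_empty] at hF
        subst hF
        have : bxU (∅ : Finset ((Fin (d + 1) → ℝ) × (Fin (d + 1) → ℝ))) = ∅ := by
          ext z; simp [bxU]
        rw [this]
        exact zRV_empty k _
      obtain ⟨p0, hp0, hmax⟩ := Finset.exists_max_image F (fun p => p.1 0) hF
      have hU : bxU F = bxU (F.erase p0) ∪ bx p0 := by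
        ext z
        simp only [bxU, mem_ofPred_eq, mem_union, Finset.mem_erase]
        constructor
        · rintro ⟨p, hp, hz⟩
          by_cases h : p = p0
          · right; rw [← h]; exact hz
          · left; exact ⟨p, ⟨h, hp⟩, hz⟩
        · rintro (⟨p, ⟨_, hp⟩, hz⟩ | hz)
          · exact ⟨p, hp, hz⟩
          · exact ⟨p0, hp0, hz⟩
      rw [hU]
      apply RV_glue k _ _ (isOpen_bxU _) (isOpen_bx _) q
      · exact ihF _ (Finset.erase_ssubset hp0) (q + 1) hq
      · exact RV_convex k (convex_bx p0) (q + 1)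
      · set l := p0.1 0 with hl
        let r : (Fin (d + 1) → ℝ) × (Fin (d + 1) → ℝ) → ℝ := fun p => min (p.2 0) (p0.2 0)
        let G := (F.erase p0).filter (fun p => l < r p)
        let tl : (Fin (d + 1) → ℝ) × (Fin (d + 1) → ℝ) → (Fin d → ℝ) × (Fin d → ℝ) := fun p =>
          (fun i => max (p.1 i.succ) (p0.1 i.succ), fun i => min (p.2 i.succ) (p0.2 i.succ))
        have hset : bxU (F.erase p0) ∩ bx p0 = {z : Fin (d + 1) → ℝ | ∃ p ∈ G,
            (l < z 0 ∧ z 0 < r p) ∧ (fun i => z (Fin.succ i)) ∈ bx (tl p)} := by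
          ext z
          simp only [bxU, mem_ofPred_eq, mem_inter_iff, Finset.mem_filter, bx, G, r, tl,
            max_lt_iff, lt_min_iff]
          constructor
          · rintro ⟨⟨p, hp, hz⟩, hz0⟩
            refine ⟨p, ⟨hp, ?_⟩, ⟨(hz0 0).1, (hz 0).2, (hz0 0).2⟩, fun i => ?_⟩
            · exact ⟨lt_trans (hz0 0).1 (hz 0).2, lt_trans (hz0 0).1 (hz0 0).2⟩
            · exact ⟨⟨(hz i.succ).1, (hz0 i.succ).1⟩, (hz i.succ).2, (hz0 i.succ).2⟩
          · rintro ⟨p, ⟨hp, _⟩, ⟨h1, h2, h3⟩, h4⟩
            refine ⟨⟨p, hp, fun i => ?_⟩, fun i => ?_⟩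
            · refine Fin.cases ?_ (fun j => ?_) i
              · refine ⟨lt_of_le_of_lt ?_ h1, h2⟩
                exact hmax p (Finset.mem_of_mem_erase hp)
              · exact ⟨(h4 j).1.1, (h4 j).2.1⟩
            · refine Fin.cases ?_ (fun j => ?_) i
              · exact ⟨h1, h3⟩
              · exact ⟨(h4 j).1.2, (h4 j).2.2⟩
        rw [hset]
        apply RV_stair k G l r (fun p hp => (Finset.mem_filter.mp hp).2) (fun p => bx (tl p)) q
        have hbase : {y : Fin d → ℝ | ∃ p ∈ G, y ∈ bx (tl p)} = bxU (G.image tl) := by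
          ext y
          simp only [bxU, mem_ofPred_eq, Finset.mem_image]
          constructor
          · rintro ⟨p, hp, hy⟩
            exact ⟨_, ⟨p, hp, rfl⟩, hy⟩
          · rintro ⟨_, ⟨p, hp, rfl⟩, hy⟩
            exact ⟨p, hp, hy⟩
        rw [hbase]
        exact ih _ q hdq

/-- Open subsets of `Fin d → ℝ`. -/
theorem RV_open (k : Type v) [Field k] (d : ℕ) (U : Set (Fin d → ℝ)) (hU : IsOpen U)
    (q : ℕ) (hq : d ≤ q) : RV k U q := by
  classical
  obtain rfl | hd := Nat.eq_zero_or_pos d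
  · apply RV_convex
    intro x hx y hy a b _ _ _
    have : a • x + b • y = x := Subsingleton.elim _ _
    rw [this]; exact hx
  obtain ⟨q, rfl⟩ : ∃ q', q = q' + 1 := ⟨q - 1, by omega⟩
  let ι := {p : (Fin d → ℝ) × (Fin d → ℝ) // bx p ⊆ U}
  obtain ⟨T, hTc, hT⟩ := TopologicalSpace.isOpen_iUnion_countable (fun p : ι => bx p.1)
    (fun p => isOpen_bx p.1)
  have hcov : ∀ x ∈ U, ∃ p ∈ T, x ∈ bx p.1 := by
    intro x hx
    have h1 : x ∈ ⋃ p : ι, bx p.1 := by
      rw [Metric.isOpen_iff] at hU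
      obtain ⟨ε, hε, hb⟩ := hU x hx
      have hsub : bx (fun i => x i - ε / 2, fun i => x i + ε / 2) ⊆ U := by
        intro z hz
        apply hb
        rw [Metric.mem_ball]
        have : dist z x ≤ ε / 2 := by
          rw [dist_pi_le_iff (by linarith)]
          intro i
          have := hz i
          rw [Real.dist_eq, abs_le]
          constructor
          · have := this.1
            simp only at this
            linarith
          · have := this.2
            simp only at this
            linarith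
        linarith
      rw [mem_iUnion]
      refine ⟨⟨_, hsub⟩, fun i => ?_⟩
      simp only
      constructor <;> linarith
    rw [← hT] at h1
    simpa only [mem_iUnion, exists_prop] using h1
  by_cases hTe : T = ∅
  · have : U = ∅ := by
      ext x
      simp only [mem_empty_iff_false, iff_false]
      intro hx
      obtain ⟨p, hp, _⟩ := hcov x hx
      rw [hTe] at hp
      exact hp
    subst this
    exact zRV_empty k _
  obtain ⟨f, hf⟩ := hTc.exists_eq_range (Set.nonempty_iff_ne_empty.mpr hTe)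
  let W : ℕ → Set (Fin d → ℝ) := fun m => bxU ((Finset.range m).image (fun j => (f j).1))
  have hWmem : ∀ m x, x ∈ W m ↔ ∃ j < m, x ∈ bx (f j).1 := by
    intro m x
    simp only [W, bxU, mem_ofPred_eq, Finset.mem_image, Finset.mem_range]
    constructor
    · rintro ⟨p, ⟨j, hj, rfl⟩, hx⟩
      exact ⟨j, hj, hx⟩
    · rintro ⟨j, hj, hx⟩
      exact ⟨_, ⟨j, hj, rfl⟩, hx⟩
  have hWU : ∀ m, W m ⊆ U := by
    intro m x hx
    rw [hWmem] at hx
    obtain ⟨j, _, hx⟩ := hx
    exact (f j).2 hx
  apply RV_iUnion k (fun m => (Subtype.val ⁻¹' W m : Set U))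
  · intro m
    exact (isOpen_bxU _).preimage continuous_subtype_val
  · intro m m' hm x hx
    simp only [mem_preimage] at hx ⊢
    rw [hWmem] at hx ⊢
    obtain ⟨j, hj, hx⟩ := hx
    exact ⟨j, lt_of_lt_of_le hj hm, hx⟩
  · intro x
    obtain ⟨p, hp, hx⟩ := hcov x.1 x.2
    rw [hf] at hp
    obtain ⟨j, rfl⟩ := hp
    refine ⟨j + 1, ?_⟩
    simp only [mem_preimage]
    rw [hWmem]
    exact ⟨j, Nat.lt_succ_self j, hx⟩
  · intro m
    apply RV_homeo k (subHomeo U _ (W m) ?_) (q + 1) (RV_bxU k d _ (q + 1) hq)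
    intro x
    constructor
    · intro hx; exact ⟨hWU m hx, hx⟩
    · rintro ⟨_, hx⟩; exact hx

end

end Pool.Agent.Run7.h981
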